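import Pool.Agent.R545.Mw.Defs

/-!
# Module-width versus clique-width and NLC-width
-/

namespace Pool.Agent.R545.Mw

open Classical Pool.Agent.R545.Lc Pool.Agent.Helper856.Cw

/-! ### From constructions to trees -/

theorem cnt_range_le {V X : Type} {k : ℕ} {Gf : SimpleGraph X} (e : V → X) (l : V → Fin k)
    (hc : ∀ u v, l u = l v → ∀ x, x ∉ Set.range e → (Gf.Adj (e u) x ↔ Gf.Adj (e v) x)) :
    cnt Gf (Set.range e) ≤ k := by
  have hsame : ∀ u v, l u = l v → nb Gf (Set.range e) (e u) = nb Gf (Set.range e) (e v) := by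
    intro u v huv
    ext x
    constructor
    · rintro ⟨h1, h2⟩
      exact ⟨(hc u v huv x h2).1 h1, h2⟩
    · rintro ⟨h1, h2⟩
      exact ⟨(hc u v huv x h2).2 h1, h2⟩
  have hrep : ∀ i : Fin k, ∃ S : Set X, ∀ u, l u = i → nb Gf (Set.range e) (e u) = S := by
    intro i
    by_cases h : ∃ u, l u = i
    · obtain ⟨u, hu⟩ := h
      exact ⟨_, fun v hv => hsame v u (hv.trans hu.symm)⟩
    · exact ⟨∅, fun u hu => absurd ⟨u, hu⟩ h⟩
  choose g hg using hrep
  have hsub : nb Gf (Set.range e) '' Set.range e ⊆ Set.range g := by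
    rintro _ ⟨_, ⟨u, rfl⟩, rfl⟩
    exact ⟨l u, (hg (l u) u rfl).symm⟩
  calc cnt Gf (Set.range e) ≤ (Set.range g).ncard := Set.ncard_le_ncard hsub (Set.toFinite _)
    _ ≤ k := by
      rw [← Set.image_univ]
      refine (Set.ncard_image_le (Set.toFinite _)).trans ?_
      rw [Set.ncard_univ, Nat.card_eq_fintype_card, Fintype.card_fin]

theorem range_unit {X : Type} (e : Unit → X) : Set.range e = {e ()} := by
  ext x
  simp only [Set.mem_range, Set.mem_singleton_iff]
  constructor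
  · rintro ⟨u, rfl⟩
    rfl
  · rintro rfl
    exact ⟨(), rfl⟩

theorem range_sum {V W X : Type} (e : V ⊕ W → X) :
    Set.range e = Set.range (fun v => e (Sum.inl v)) ∪ Set.range (fun w => e (Sum.inr w)) := by
  ext x
  constructor
  · rintro ⟨y | y, rfl⟩
    · exact Or.inl ⟨y, rfl⟩
    · exact Or.inr ⟨y, rfl⟩
  · rintro (⟨y, rfl⟩ | ⟨y, rfl⟩)
    · exact ⟨_, rfl⟩
    · exact ⟨_, rfl⟩

theorem disjoint_sum {V W X : Type} (e : V ⊕ W → X) (he : Function.Injective e) :
    Disjoint (Set.range (fun v => e (Sum.inl v))) (Set.range (fun w => e (Sum.inr w))) := by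
  rw [Set.disjoint_left]
  rintro _ ⟨y, rfl⟩ ⟨z, hz⟩
  exact absurd (he hz) (by simp)

theorem tl_of_cwBuilt {k : ℕ} {V : Type} {G' : SimpleGraph V} {l : V → Fin k}
    (h : CwBuilt k V G' l) : ∀ {X : Type} (Gf : SimpleGraph X) (e : V → X),
      Function.Injective e →
      (∀ u v, G'.Adj u v → Gf.Adj (e u) (e v)) →
      (∀ u v, ¬ G'.Adj u v → Gf.Adj (e u) (e v) → l u ≠ l v ∧
        ∀ u' v', l u' = l u → l v' = l v → Gf.Adj (e u') (e v')) →
      (∀ u v, l u = l v → ∀ x, x ∉ Set.range e → (Gf.Adj (e u) x ↔ Gf.Adj (e v) x)) →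
      TL (fun A => cnt Gf A ≤ k) (Set.range e) := by
  induction h with
  | single i =>
    intro X Gf e he ha hb hc
    have h1 := cnt_range_le (Gf := Gf) e (fun _ => i) hc
    rw [range_unit] at h1 ⊢
    exact TL.single (e ()) h1
  | union V W G H l m hG hH ihG ihH =>
    intro X Gf e he ha hb hc
    have h1 := cnt_range_le (Gf := Gf) e _ hc
    have h2 := ihG Gf (fun w => e (Sum.inl w)) (fun a b hab => Sum.inl_injective (he hab))
        (fun u v huv => ha _ _ huv)
        (fun u v huv h => by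
          obtain ⟨h1, h2⟩ := hb (Sum.inl u) (Sum.inl v) huv h
          exact ⟨h1, fun u' v' hu' hv' => h2 (Sum.inl u') (Sum.inl v') hu' hv'⟩)
        (fun u v huv x hx => by
          by_cases hx' : x ∈ Set.range e
          · obtain ⟨y | y, rfl⟩ := hx'
            · exact absurd ⟨y, rfl⟩ hx
            · constructor
              · intro h
                exact (hb (Sum.inl u) (Sum.inr y) (by simp) h).2 (Sum.inl v) (Sum.inr y)
                  huv.symm rfl
              · intro h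
                exact (hb (Sum.inl v) (Sum.inr y) (by simp) h).2 (Sum.inl u) (Sum.inr y)
                  huv rfl
          · exact hc (Sum.inl u) (Sum.inl v) huv x hx')
    have h3 := ihH Gf (fun w => e (Sum.inr w)) (fun a b hab => Sum.inr_injective (he hab))
        (fun u v huv => ha _ _ huv)
        (fun u v huv h => by
          obtain ⟨h1, h2⟩ := hb (Sum.inr u) (Sum.inr v) huv h
          exact ⟨h1, fun u' v' hu' hv' => h2 (Sum.inr u') (Sum.inr v') hu' hv'⟩)
        (fun u v huv x hx => by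
          by_cases hx' : x ∈ Set.range e
          · obtain ⟨y | y, rfl⟩ := hx'
            · constructor
              · intro h
                exact (hb (Sum.inr u) (Sum.inl y) (by simp) h).2 (Sum.inr v) (Sum.inl y)
                  huv.symm rfl
              · intro h
                exact (hb (Sum.inr v) (Sum.inl y) (by simp) h).2 (Sum.inr u) (Sum.inl y)
                  huv rfl
            · exact absurd ⟨y, rfl⟩ hx
          · exact hc (Sum.inr u) (Sum.inr v) huv x hx')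
    rw [range_sum] at h1 ⊢
    exact TL.union _ _ (disjoint_sum e he) h2 h3 h1
  | join V G l i j hij hG ih =>
    intro X Gf e he ha hb hc
    refine ih Gf e he (fun u v huv => ha u v (Or.inl huv)) ?_ hc
    intro u v huv h
    by_cases hJ : (SimpleGraph.fromRel (fun u v => l u = i ∧ l v = j)).Adj u v
    · have hJ' := hJ
      rw [SimpleGraph.fromRel_adj] at hJ'
      obtain ⟨hne, hJ' | hJ'⟩ := hJ'
      · refine ⟨by rw [hJ'.1, hJ'.2]; exact hij, fun u' v' hu' hv' => ?_⟩
        refine ha u' v' (Or.inr ?_)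
        rw [SimpleGraph.fromRel_adj]
        refine ⟨?_, Or.inl ⟨by rw [hu', hJ'.1], by rw [hv', hJ'.2]⟩⟩
        rintro rfl
        exact hij (by rw [← hJ'.1, ← hu', hv', hJ'.2])
      · refine ⟨by rw [hJ'.1, hJ'.2]; exact hij.symm, fun u' v' hu' hv' => ?_⟩
        refine ha u' v' (Or.inr ?_)
        rw [SimpleGraph.fromRel_adj]
        refine ⟨?_, Or.inr ⟨by rw [hv', hJ'.1], by rw [hu', hJ'.2]⟩⟩
        rintro rfl
        exact hij (by rw [← hJ'.1, ← hv', hu', hJ'.2])
    · refine hb u v ?_ h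
      rintro (h' | h')
      · exact huv h'
      · exact hJ h'
  | relabel V G l i j hG ih =>
    intro X Gf e he ha hb hc
    refine ih Gf e he ha ?_ ?_
    · intro u v huv h
      obtain ⟨h1, h2⟩ := hb u v huv h
      refine ⟨fun h' => h1 (by simp only [h']), fun u' v' hu' hv' => h2 u' v' ?_ ?_⟩
      · simp only [hu']
      · simp only [hv']
    · intro u v huv x hx
      exact hc u v (by simp only [huv]) x hx

theorem tl_of_nlcBuilt {k : ℕ} {V : Type} {G' : SimpleGraph V} {l : V → Fin k}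
    (h : NlcBuilt k V G' l) : ∀ {X : Type} (Gf : SimpleGraph X) (e : V → X),
      Function.Injective e →
      (∀ u v, G'.Adj u v ↔ Gf.Adj (e u) (e v)) →
      (∀ u v, l u = l v → ∀ x, x ∉ Set.range e → (Gf.Adj (e u) x ↔ Gf.Adj (e v) x)) →
      TL (fun A => cnt Gf A ≤ k) (Set.range e) := by
  induction h with
  | single i =>
    intro X Gf e he ha hc
    have h1 := cnt_range_le (Gf := Gf) e (fun _ => i) hc
    rw [range_unit] at h1 ⊢
    exact TL.single (e ()) h1
  | relabel V G l R hG ih =>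
    intro X Gf e he ha hc
    exact ih Gf e he ha (fun u v huv x hx => hc u v (by simp only [huv]) x hx)
  | comp V W G H l m S hG hH ihG ihH =>
    intro X Gf e he ha hc
    have h1 := cnt_range_le (Gf := Gf) e _ hc
    have hS : ∀ u y, Gf.Adj (e (Sum.inl u)) (e (Sum.inr y)) ↔ S (l u) (m y) := fun u y =>
      (ha (Sum.inl u) (Sum.inr y)).symm
    have h2 := ihG Gf (fun w => e (Sum.inl w)) (fun a b hab => Sum.inl_injective (he hab))
        (fun u v => ha (Sum.inl u) (Sum.inl v))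
        (fun u v huv x hx => by
          by_cases hx' : x ∈ Set.range e
          · obtain ⟨y | y, rfl⟩ := hx'
            · exact absurd ⟨y, rfl⟩ hx
            · rw [hS, hS, huv]
          · exact hc (Sum.inl u) (Sum.inl v) huv x hx')
    have h3 := ihH Gf (fun w => e (Sum.inr w)) (fun a b hab => Sum.inr_injective (he hab))
        (fun u v => ha (Sum.inr u) (Sum.inr v))
        (fun u v huv x hx => by
          by_cases hx' : x ∈ Set.range e
          · obtain ⟨y | y, rfl⟩ := hx'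
            · rw [Gf.adj_comm, hS, Gf.adj_comm, hS, huv]
            · exact absurd ⟨y, rfl⟩ hx
          · exact hc (Sum.inr u) (Sum.inr v) huv x hx')
    rw [range_sum] at h1 ⊢
    exact TL.union _ _ (disjoint_sum e he) h2 h3 h1

theorem range_iso {V W : Type} {G : SimpleGraph V} {G' : SimpleGraph W} (e : G ≃g G') :
    Set.range (fun w => e.symm w) = Set.univ := by
  ext x
  simp only [Set.mem_range, Set.mem_univ, iff_true]
  exact ⟨e x, e.symm_apply_apply x⟩

/-- Module-width is at most clique-width. -/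
theorem mwLE_of_cwLE {V : Type} {G : SimpleGraph V} {k : ℕ} (h : CwLE G k) : MwLE G k := by
  obtain ⟨W, G', l, hb, ⟨e⟩⟩ := h
  have hL := tl_of_cwBuilt hb G (fun w => e.symm w) e.symm.injective
    (fun u v huv => e.symm.map_adj_iff.mpr huv)
    (fun u v huv h => absurd (e.symm.map_adj_iff.mp h) huv)
    (fun u v _ x hx => absurd ⟨e x, e.symm_apply_apply x⟩ hx)
  rw [range_iso] at hL
  exact Or.inr hL

/-- Module-width is at most NLC-width. -/
theorem mwLE_of_nlcLE {V : Type} {G : SimpleGraph V} {k : ℕ} (h : NlcLE G k) : MwLE G k := by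
  obtain ⟨W, G', l, hb, ⟨e⟩⟩ := h
  have hL := tl_of_nlcBuilt hb G (fun w => e.symm w) e.symm.injective
    (fun u v => e.symm.map_adj_iff.symm)
    (fun u v _ x hx => absurd ⟨e x, e.symm_apply_apply x⟩ hx)
  rw [range_iso] at hL
  exact Or.inr hL

/-! ### Labelled graphs on a set of vertices -/

variable {V : Type}

/-- The graph `H` restricted to the set `A`, with the labels `l`, can be built. -/
def CBS (c : ℕ) (A : Set V) (H : SimpleGraph V) (l : V → Fin c) : Prop :=
  ∃ (W : Type) (G' : SimpleGraph W) (l' : W → Fin c) (e : W → V), CwBuilt c W G' l' ∧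
    Function.Injective e ∧ Set.range e = A ∧ (∀ x y, G'.Adj x y ↔ H.Adj (e x) (e y)) ∧
    ∀ x, l' x = l (e x)

theorem CBS.single {c : ℕ} (v : V) (H : SimpleGraph V) (l : V → Fin c) : CBS c {v} H l := by
  refine ⟨Unit, ⊥, fun _ => l v, fun _ => v, CwBuilt.single (l v), fun _ _ _ => rfl, ?_, ?_,
    fun _ => rfl⟩
  · ext x
    simp [eq_comm]
  · intro x y
    simp

theorem CBS.congr {c : ℕ} {A : Set V} {H H2 : SimpleGraph V} {l l2 : V → Fin c}
    (h : CBS c A H l) (h1 : ∀ u ∈ A, ∀ w ∈ A, (H.Adj u w ↔ H2.Adj u w))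
    (h2 : ∀ u ∈ A, l u = l2 u) : CBS c A H2 l2 := by
  obtain ⟨W, G', l', e, hb, he, hr, ha, hl⟩ := h
  have hmem : ∀ x, e x ∈ A := fun x => by rw [← hr]; exact ⟨x, rfl⟩
  refine ⟨W, G', l', e, hb, he, hr, fun x y => ?_, fun x => ?_⟩
  · rw [ha, h1 _ (hmem x) _ (hmem y)]
  · rw [hl, h2 _ (hmem x)]

theorem CBS.union {c : ℕ} {A B : Set V} {H : SimpleGraph V} {l : V → Fin c}
    (hA : CBS c A H l) (hB : CBS c B H l) (hd : Disjoint A B)
    (hn : ∀ u ∈ A, ∀ w ∈ B, ¬ H.Adj u w) : CBS c (A ∪ B) H l := by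
  obtain ⟨W, G', l', e, hb, he, hr, ha, hl⟩ := hA
  obtain ⟨W2, G2, l2, e2, hb2, he2, hr2, ha2, hl2⟩ := hB
  have hmem : ∀ x, e x ∈ A := fun x => by rw [← hr]; exact ⟨x, rfl⟩
  have hmem2 : ∀ x, e2 x ∈ B := fun x => by rw [← hr2]; exact ⟨x, rfl⟩
  have hne : ∀ x y, e x ≠ e2 y := fun x y h =>
    (Set.disjoint_left.1 hd) (hmem x) (h ▸ hmem2 y)
  refine ⟨W ⊕ W2, G' ⊕g G2, Sum.elim l' l2, Sum.elim e e2,
    CwBuilt.union W W2 G' G2 l' l2 hb hb2, ?_, ?_, ?_, ?_⟩
  · rintro (x | x) (y | y) hxy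
    · exact congrArg Sum.inl (he hxy)
    · exact absurd hxy (hne x y)
    · exact absurd hxy.symm (hne y x)
    · exact congrArg Sum.inr (he2 hxy)
  · rw [Set.Sum.elim_range, hr, hr2]
  · rintro (x | x) (y | y)
    · simpa using ha x y
    · simp only [Sum.elim_inl, Sum.elim_inr]
      constructor
      · intro h
        simp at h
      · intro h
        exact absurd h (hn _ (hmem x) _ (hmem2 y))
    · simp only [Sum.elim_inl, Sum.elim_inr]
      constructor
      · intro h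
        simp at h
      · intro h
        exact absurd h.symm (hn _ (hmem y) _ (hmem2 x))
    · simpa using ha2 x y
  · rintro (x | x)
    · exact hl x
    · exact hl2 x

theorem CBS.join {c : ℕ} {A : Set V} {H : SimpleGraph V} {l : V → Fin c}
    (h : CBS c A H l) {i j : Fin c} (hij : i ≠ j) :
    CBS c A (H ⊔ SimpleGraph.fromRel (fun u v => l u = i ∧ l v = j)) l := by
  obtain ⟨W, G', l', e, hb, he, hr, ha, hl⟩ := h
  refine ⟨W, _, l', e, CwBuilt.join W G' l' i j hij hb, he, hr, ?_, hl⟩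
  intro x y
  simp only [SimpleGraph.sup_adj, SimpleGraph.fromRel_adj, ha, hl, ne_eq, he.eq_iff]

theorem CBS.relabel {c : ℕ} {A : Set V} {H : SimpleGraph V} {l : V → Fin c}
    (h : CBS c A H l) (i j : Fin c) :
    CBS c A H (fun v => if l v = i then j else l v) := by
  obtain ⟨W, G', l', e, hb, he, hr, ha, hl⟩ := h
  refine ⟨W, G', _, e, CwBuilt.relabel W G' l' i j hb, he, hr, ha, ?_⟩
  intro x
  simp only [hl]

theorem CBS.joins {c : ℕ} {A : Set V} {H : SimpleGraph V} {l : V → Fin c}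
    (h : CBS c A H l) : ∀ S : List (Fin c × Fin c), (∀ p ∈ S, p.1 ≠ p.2) →
    CBS c A (H ⊔ SimpleGraph.fromRel (fun u v => (l u, l v) ∈ S)) l
  | [], _ => by
    refine h.congr (fun u _ w _ => ?_) (fun u _ => rfl)
    simp
  | (i, j) :: S, hS => by
    have hij : i ≠ j := hS (i, j) (by simp)
    refine ((h.joins S (fun p hp => hS p (List.mem_cons_of_mem _ hp))).join hij).congr
      (fun u _ w _ => ?_) (fun u _ => rfl)
    simp only [SimpleGraph.sup_adj, SimpleGraph.fromRel_adj, List.mem_cons, Prod.mk.injEq]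
    tauto

theorem CBS.relabels {c : ℕ} {A : Set V} {H : SimpleGraph V} {l : V → Fin c}
    (h : CBS c A H l) (f : Fin c → Fin c) (hf : ∀ a, f (f a) = f a) : ∀ L : List (Fin c),
    CBS c A H (fun v => if l v ∈ L then f (l v) else l v)
  | [] => h.congr (fun _ _ _ _ => Iff.rfl) (fun u _ => by simp)
  | i :: L => by
    refine ((h.relabels f hf L).relabel i (f i)).congr (fun _ _ _ _ => Iff.rfl) (fun u _ => ?_)
    by_cases h1 : l u ∈ L
    · simp only [h1, if_true, List.mem_cons, or_true]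
      by_cases h2 : f (l u) = i
      · rw [if_pos h2, ← h2, hf]
      · rw [if_neg h2]
    · simp only [h1, if_false, List.mem_cons, or_false]
      by_cases h2 : l u = i
      · rw [if_pos h2, if_pos h2, h2]
      · rw [if_neg h2, if_neg h2]

theorem CBS.comp {c : ℕ} {A : Set V} {H : SimpleGraph V} {l : V → Fin c}
    (h : CBS c A H l) (f : Fin c → Fin c) (hf : ∀ a, f (f a) = f a) :
    CBS c A H (fun v => f (l v)) :=
  (h.relabels f hf (List.finRange c)).congr (fun _ _ _ _ => Iff.rfl) (fun u _ => by simp)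

/-- The same for NLC. -/
def NBS (c : ℕ) (A : Set V) (H : SimpleGraph V) (l : V → Fin c) : Prop :=
  ∃ (W : Type) (G' : SimpleGraph W) (l' : W → Fin c) (e : W → V), NlcBuilt c W G' l' ∧
    Function.Injective e ∧ Set.range e = A ∧ (∀ x y, G'.Adj x y ↔ H.Adj (e x) (e y)) ∧
    ∀ x, l' x = l (e x)

theorem NBS.single {c : ℕ} (v : V) (H : SimpleGraph V) (l : V → Fin c) : NBS c {v} H l := by
  refine ⟨Unit, ⊥, fun _ => l v, fun _ => v, NlcBuilt.single (l v), fun _ _ _ => rfl, ?_, ?_,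
    fun _ => rfl⟩
  · ext x
    simp [eq_comm]
  · intro x y
    simp

theorem NBS.congr {c : ℕ} {A : Set V} {H H2 : SimpleGraph V} {l l2 : V → Fin c}
    (h : NBS c A H l) (h1 : ∀ u ∈ A, ∀ w ∈ A, (H.Adj u w ↔ H2.Adj u w))
    (h2 : ∀ u ∈ A, l u = l2 u) : NBS c A H2 l2 := by
  obtain ⟨W, G', l', e, hb, he, hr, ha, hl⟩ := h
  have hmem : ∀ x, e x ∈ A := fun x => by rw [← hr]; exact ⟨x, rfl⟩
  refine ⟨W, G', l', e, hb, he, hr, fun x y => ?_, fun x => ?_⟩
  · rw [ha, h1 _ (hmem x) _ (hmem y)]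
  · rw [hl, h2 _ (hmem x)]

theorem NBS.comp {c : ℕ} {A : Set V} {H : SimpleGraph V} {l : V → Fin c}
    (h : NBS c A H l) (f : Fin c → Fin c) : NBS c A H (fun v => f (l v)) := by
  obtain ⟨W, G', l', e, hb, he, hr, ha, hl⟩ := h
  refine ⟨W, G', _, e, NlcBuilt.relabel W G' l' f hb, he, hr, ha, fun x => ?_⟩
  simp only [hl]

theorem NBS.union {c : ℕ} {A B : Set V} {H : SimpleGraph V} {l : V → Fin c}
    (hA : NBS c A H l) (hB : NBS c B H l) (hd : Disjoint A B) (S : Fin c → Fin c → Prop)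
    (hn : ∀ u ∈ A, ∀ w ∈ B, (H.Adj u w ↔ S (l u) (l w))) : NBS c (A ∪ B) H l := by
  obtain ⟨W, G', l', e, hb, he, hr, ha, hl⟩ := hA
  obtain ⟨W2, G2, l2, e2, hb2, he2, hr2, ha2, hl2⟩ := hB
  have hmem : ∀ x, e x ∈ A := fun x => by rw [← hr]; exact ⟨x, rfl⟩
  have hmem2 : ∀ x, e2 x ∈ B := fun x => by rw [← hr2]; exact ⟨x, rfl⟩
  have hne : ∀ x y, e x ≠ e2 y := fun x y h =>
    (Set.disjoint_left.1 hd) (hmem x) (h ▸ hmem2 y)
  refine ⟨W ⊕ W2, _, Sum.elim l' l2, Sum.elim e e2,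
    NlcBuilt.comp W W2 G' G2 l' l2 S hb hb2, ?_, ?_, ?_, ?_⟩
  · rintro (x | x) (y | y) hxy
    · exact congrArg Sum.inl (he hxy)
    · exact absurd hxy (hne x y)
    · exact absurd hxy.symm (hne y x)
    · exact congrArg Sum.inr (he2 hxy)
  · rw [Set.Sum.elim_range, hr, hr2]
  · rintro (x | x) (y | y)
    · exact ha x y
    · simp only [Sum.elim_inl, Sum.elim_inr]
      rw [hn _ (hmem x) _ (hmem2 y), ← hl, ← hl2]
      exact Iff.rfl
    · simp only [Sum.elim_inl, Sum.elim_inr]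
      rw [H.adj_comm, hn _ (hmem y) _ (hmem2 x), ← hl, ← hl2]
      exact Iff.rfl
    · exact ha2 x y
  · rintro (x | x)
    · exact hl x
    · exact hl2 x

/-! ### The induction -/

theorem TL.finite {P : Set V → Prop} {A : Set V} (h : TL P A) : A.Finite := by
  induction h with
  | single v _ => exact Set.finite_singleton v
  | union A B _ _ _ _ ih1 ih2 => exact ih1.union ih2

theorem nb_union_of_left (G : SimpleGraph V) {A B : Set V} {u w : V}
    (h : nb G A u = nb G A w) : nb G (A ∪ B) u = nb G (A ∪ B) w := by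
  ext x
  have hx : x ∈ nb G A u ↔ x ∈ nb G A w := by rw [h]
  simp only [nb, Set.mem_ofPred_eq, Set.mem_union, not_or] at hx ⊢
  tauto

theorem nb_union_of_right (G : SimpleGraph V) {A B : Set V} {u w : V}
    (h : nb G B u = nb G B w) : nb G (A ∪ B) u = nb G (A ∪ B) w := by
  rw [Set.union_comm]
  exact nb_union_of_left G h

/-- Lift a small label. -/
def up (k : ℕ) (a : Fin (2 * k)) : Fin (2 * k) :=
  if h : (a : ℕ) < k then ⟨a + k, by omega⟩ else a

theorem up_idem (k : ℕ) (a : Fin (2 * k)) : up k (up k a) = up k a := by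
  by_cases h : (a : ℕ) < k
  · have h1 : up k a = ⟨a + k, by omega⟩ := dif_pos h
    rw [h1]
    exact dif_neg (by simp)
  · have h1 : up k a = a := dif_neg h
    rw [h1, h1]

theorem up_ge {k : ℕ} (a : Fin (2 * k)) : k ≤ (up k a : ℕ) := by
  by_cases h : (a : ℕ) < k
  · have h1 : up k a = ⟨a + k, by omega⟩ := dif_pos h
    rw [h1]
    simp
  · have h1 : up k a = a := dif_neg h
    rw [h1]
    omega

theorem up_inj {k : ℕ} {a b : Fin (2 * k)} (ha : (a : ℕ) < k) (hb : (b : ℕ) < k)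
    (h : up k a = up k b) : a = b := by
  have h1 : up k a = ⟨a + k, by omega⟩ := dif_pos ha
  have h2 : up k b = ⟨b + k, by omega⟩ := dif_pos hb
  rw [h1, h2, Fin.mk.injEq] at h
  apply Fin.ext
  omega

theorem ncard_low (k : ℕ) : {a : Fin (2 * k) | (a : ℕ) < k}.ncard = k := by
  have h : {a : Fin (2 * k) | (a : ℕ) < k} = Set.range (fun b : Fin k => (⟨b, by omega⟩ : Fin (2 * k))) := by
    ext a
    simp only [Set.mem_ofPred_eq, Set.mem_range]
    constructor
    · intro h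
      exact ⟨⟨a, h⟩, rfl⟩
    · rintro ⟨b, rfl⟩
      exact b.2
  rw [h, ← Set.image_univ, Set.ncard_image_of_injective, Set.ncard_univ,
    Nat.card_eq_fintype_card, Fintype.card_fin]
  intro b b' hbb
  simpa [Fin.ext_iff] using hbb

/-- The labels after the union: small labels for the classes. -/
theorem exists_label {k : ℕ} {G : SimpleGraph V} {C : Set V} (hC : C.Finite) (hk : 0 < k)
    (A : Set V) (hAC : A ⊆ C) (hc : cnt G C ≤ k) (ψ : Set V → Fin (2 * k))
    (hψ : ∀ u ∈ A, (ψ (nb G C u) : ℕ) < k) (hinj : Set.InjOn ψ (nb G C '' A)) :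
    ∃ Φ : Set V → Fin (2 * k), (∀ u ∈ C, (Φ (nb G C u) : ℕ) < k) ∧
      Set.InjOn Φ (nb G C '' C) ∧ ∀ u ∈ A, Φ (nb G C u) = ψ (nb G C u) := by
  set CC := nb G C '' C with hCC
  set CA := nb G C '' A with hCA
  have hfC : CC.Finite := hC.image _
  have hsub : CA ⊆ CC := Set.image_mono hAC
  have hfA : CA.Finite := hfC.subset hsub
  set T : Set (Fin (2 * k)) := {a | (a : ℕ) < k} \ ψ '' CA with hT
  have himg : ψ '' CA ⊆ {a : Fin (2 * k) | (a : ℕ) < k} := by
    rintro _ ⟨_, ⟨u, hu, rfl⟩, rfl⟩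
    exact hψ u hu
  have hcard : (CC \ CA).ncard ≤ T.ncard := by
    have h1 := Set.ncard_sdiff_add_ncard_of_subset hsub hfC
    have h2 := Set.ncard_sdiff_add_ncard_of_subset himg (Set.toFinite _)
    rw [ncard_low, hinj.ncard_image] at h2
    have h3 : CC.ncard ≤ k := hc
    rw [hT]
    omega
  have : Nonempty (Fin (2 * k)) := ⟨⟨0, by omega⟩⟩
  obtain ⟨f, hf1, hf2⟩ := (hfC.subset Set.sdiff_subset :
    (CC \ CA).Finite).exists_injOn_of_encard_le (t := T) (by
      rw [← (hfC.subset Set.sdiff_subset : (CC \ CA).Finite).cast_ncard_eq,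
        ← (Set.toFinite T).cast_ncard_eq]
      exact_mod_cast hcard)
  refine ⟨fun S => if S ∈ CA then ψ S else f S, ?_, ?_, ?_⟩
  · intro u hu
    by_cases h : nb G C u ∈ CA
    · simp only [h, if_true]
      exact himg ⟨_, h, rfl⟩
    · simp only [h, if_false]
      exact (hf1 ⟨⟨u, hu, rfl⟩, h⟩).1
  · intro S hS S' hS' h
    by_cases h1 : S ∈ CA <;> by_cases h2 : S' ∈ CA
    · simp only [h1, h2, if_true] at h
      exact hinj h1 h2 h
    · simp only [h1, h2, if_true, if_false] at h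
      exact absurd ⟨S, h1, h⟩ (hf1 ⟨hS', h2⟩).2
    · simp only [h1, h2, if_true, if_false] at h
      exact absurd ⟨S', h2, h.symm⟩ (hf1 ⟨hS, h1⟩).2
    · simp only [h1, h2, if_false] at h
      exact hf2 ⟨hS, h1⟩ ⟨hS', h2⟩ h
  · intro u hu
    have h : nb G C u ∈ CA := ⟨u, hu, rfl⟩
    simp only [h, if_true]

/-- Small labels with equal labels only for equal neighbourhoods. -/
def Ok (k : ℕ) (G : SimpleGraph V) (A : Set V) (l : V → Fin (2 * k)) : Prop :=
  (∀ u ∈ A, (l u : ℕ) < k) ∧ ∀ u ∈ A, ∀ w ∈ A, l u = l w → nb G A u = nb G A w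

theorem adj_of_label {k : ℕ} {G : SimpleGraph V} {A B : Set V} {l1 l2 : V → Fin (2 * k)}
    (h1 : Ok k G A l1) (h2 : Ok k G B l2) (hd : Disjoint A B) {u u' w w' : V}
    (hu : u ∈ A) (hu' : u' ∈ A) (hw : w ∈ B) (hw' : w' ∈ B) (e1 : l1 u = l1 u')
    (e2 : l2 w = l2 w') (h : G.Adj u w) : G.Adj u' w' := by
  have a1 : w ∈ nb G A u := ⟨h, fun hwA => Set.disjoint_left.1 hd hwA hw⟩
  rw [h1.2 u hu u' hu' e1] at a1
  have a2 : u' ∈ nb G B w := ⟨a1.1.symm, fun huB => Set.disjoint_left.1 hd hu' huB⟩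
  rw [h2.2 w hw w' hw' e2] at a2
  exact a2.1.symm

theorem step_cw {k : ℕ} {G : SimpleGraph V} {A B : Set V} (hk : 0 < k) (hA : A.Finite)
    (hB : B.Finite) (hd : Disjoint A B) (hAn : A.Nonempty)
    (h1 : ∃ l, CBS (2 * k) A G l ∧ Ok k G A l) (h2 : ∃ l, CBS (2 * k) B G l ∧ Ok k G B l)
    (hc : cnt G (A ∪ B) ≤ k) : ∃ l, CBS (2 * k) (A ∪ B) G l ∧ Ok k G (A ∪ B) l := by
  obtain ⟨l1, hb1, hl1⟩ := h1
  obtain ⟨l2, hb2, hl2⟩ := h2
  set C := A ∪ B with hC
  let l3 : V → Fin (2 * k) := fun v => if v ∈ A then l1 v else up k (l2 v)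
  have h3A : ∀ u ∈ A, l3 u = l1 u := fun u hu => if_pos hu
  have h3B : ∀ u ∈ B, l3 u = up k (l2 u) := fun u hu =>
    if_neg (fun h => Set.disjoint_left.1 hd h hu)
  let H0 : SimpleGraph V :=
    { Adj := fun u w => G.Adj u w ∧ ((u ∈ A ∧ w ∈ A) ∨ (u ∈ B ∧ w ∈ B))
      symm := ⟨fun u w h => ⟨h.1.symm, by tauto⟩⟩
      loopless := ⟨fun u h => G.irrefl h.1⟩ }
  have hH0 : ∀ u w, H0.Adj u w ↔ (G.Adj u w ∧ ((u ∈ A ∧ w ∈ A) ∨ (u ∈ B ∧ w ∈ B))) :=
    fun u w => Iff.rfl
  have c1 : CBS (2 * k) A H0 l3 := hb1.congr (fun u hu w hw => by rw [hH0]; tauto)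
    (fun u hu => (h3A u hu).symm)
  have c2 : CBS (2 * k) B H0 l3 := (hb2.comp (up k) (up_idem k)).congr
    (fun u hu w hw => by rw [hH0]; tauto) (fun u hu => (h3B u hu).symm)
  have c3 : CBS (2 * k) C H0 l3 := c1.union c2 hd (by
    rintro u hu w hw ⟨_, ⟨_, h⟩ | ⟨h, _⟩⟩
    · exact Set.disjoint_left.1 hd h hw
    · exact Set.disjoint_left.1 hd hu h)
  -- all joins
  let S : List (Fin (2 * k) × Fin (2 * k)) :=
    ((List.finRange (2 * k)) ×ˢ (List.finRange (2 * k))).filter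
      (fun p => decide (∃ u ∈ A, ∃ w ∈ B, l3 u = p.1 ∧ l3 w = p.2 ∧ G.Adj u w))
  have hS : ∀ p, p ∈ S ↔ ∃ u ∈ A, ∃ w ∈ B, l3 u = p.1 ∧ l3 w = p.2 ∧ G.Adj u w := by
    intro p
    simp only [S, List.mem_filter, decide_eq_true_eq]
    constructor
    · exact fun h => h.2
    · intro h
      refine ⟨?_, h⟩
      rw [show p = (p.1, p.2) from rfl, List.mem_product]
      exact ⟨List.mem_finRange _, List.mem_finRange _⟩
  have hlow : ∀ u ∈ A, (l3 u : ℕ) < k := fun u hu => by rw [h3A u hu]; exact hl1.1 u hu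
  have hhigh : ∀ u ∈ B, k ≤ (l3 u : ℕ) := fun u hu => by rw [h3B u hu]; exact up_ge _
  have hSne : ∀ p ∈ S, p.1 ≠ p.2 := by
    intro p hp h
    obtain ⟨u, hu, w, hw, e1, e2, _⟩ := (hS p).1 hp
    have a1 := hlow u hu
    have a2 := hhigh w hw
    rw [e1, h, ← e2] at a1
    omega
  have hadj : ∀ u ∈ A, ∀ w ∈ B, ((l3 u, l3 w) ∈ S ↔ G.Adj u w) := by
    intro u hu w hw
    rw [hS]
    constructor
    · rintro ⟨u', hu', w', hw', e1, e2, h⟩
      rw [h3A u hu, h3A u' hu'] at e1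
      rw [h3B w hw, h3B w' hw'] at e2
      exact adj_of_label hl1 hl2 hd hu' hu hw' hw e1
        (up_inj (hl2.1 w' hw') (hl2.1 w hw) e2) h
    · intro h
      exact ⟨u, hu, w, hw, rfl, rfl, h⟩
  have hnS : ∀ u w, (l3 u, l3 w) ∈ S → (l3 u : ℕ) < k ∧ k ≤ (l3 w : ℕ) := by
    intro u w h
    obtain ⟨u', hu', w', hw', e1, e2, _⟩ := (hS _).1 h
    constructor
    · have := hlow u' hu'
      rw [e1] at this
      exact this
    · have := hhigh w' hw'
      rw [e2] at this
      exact this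
  have c4 : CBS (2 * k) C G l3 := by
    refine (c3.joins S hSne).congr ?_ (fun _ _ => rfl)
    have key : ∀ u ∈ A, ∀ w ∈ B, ((H0 ⊔ SimpleGraph.fromRel
        (fun u v => (l3 u, l3 v) ∈ S)).Adj u w ↔ G.Adj u w) := by
      intro u hu w hw
      have hne : u ≠ w := fun e => Set.disjoint_left.1 hd hu (e ▸ hw)
      simp only [SimpleGraph.sup_adj, SimpleGraph.fromRel_adj, hH0, hadj u hu w hw]
      constructor
      · rintro (h | ⟨_, h | h⟩)
        · exact h.1
        · exact h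
        · have a1 := (hnS w u h).1
          have a2 := hhigh w hw
          omega
      · intro h
        exact Or.inr ⟨hne, Or.inl h⟩
    rintro u (hu | hu) w (hw | hw)
    · simp only [SimpleGraph.sup_adj, SimpleGraph.fromRel_adj, hH0]
      constructor
      · rintro (h | ⟨_, h | h⟩)
        · exact h.1
        · have a1 := (hnS u w h).2
          have a2 := hlow w hw
          omega
        · have a1 := (hnS w u h).2
          have a2 := hlow u hu
          omega
      · intro h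
        exact Or.inl ⟨h, Or.inl ⟨hu, hw⟩⟩
    · exact key u hu w hw
    · rw [SimpleGraph.adj_comm, key w hw u hu, G.adj_comm]
    · simp only [SimpleGraph.sup_adj, SimpleGraph.fromRel_adj, hH0]
      constructor
      · rintro (h | ⟨_, h | h⟩)
        · exact h.1
        · have a1 := (hnS u w h).1
          have a2 := hhigh u hu
          omega
        · have a1 := (hnS w u h).1
          have a2 := hhigh w hw
          omega
      · intro h
        exact Or.inl ⟨h, Or.inr ⟨hu, hw⟩⟩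
  -- representatives
  have hrep : ∀ S : Set V, ∃ r : V, r ∈ A ∧ ((∃ u ∈ A, nb G C u = S) → nb G C r = S) := by
    intro S
    by_cases hS : ∃ u ∈ A, nb G C u = S
    · obtain ⟨u, hu, e⟩ := hS
      exact ⟨u, hu, fun _ => e⟩
    · exact ⟨hAn.some, hAn.some_mem, fun h => absurd h hS⟩
  choose R hRA hR using hrep
  have hR1 : ∀ u ∈ A, nb G C (R (nb G C u)) = nb G C u := fun u hu => hR _ ⟨u, hu, rfl⟩
  have hsameA : ∀ u ∈ A, ∀ w ∈ A, l3 u = l3 w → nb G C u = nb G C w := by
    intro u hu w hw e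
    rw [h3A u hu, h3A w hw] at e
    exact nb_union_of_left G (hl1.2 u hu w hw e)
  have hsameB : ∀ u ∈ B, ∀ w ∈ B, l3 u = l3 w → nb G C u = nb G C w := by
    intro u hu w hw e
    rw [h3B u hu, h3B w hw] at e
    exact nb_union_of_right G (hl2.2 u hu w hw (up_inj (hl2.1 u hu) (hl2.1 w hw) e))
  obtain ⟨Φ, hΦ1, hΦ2, hΦ3⟩ := exists_label (hA.union hB) hk A Set.subset_union_left hc
    (fun S => l3 (R S)) (fun u hu => hlow _ (hRA _)) (by
      rintro _ ⟨u, hu, rfl⟩ _ ⟨w, hw, rfl⟩ e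
      have := hsameA _ (hRA _) _ (hRA _) e
      rw [hR1 u hu, hR1 w hw] at this
      exact this)
  let F1 : Fin (2 * k) → Fin (2 * k) := fun a =>
    if h : ∃ u ∈ A, l3 u = a then l3 (R (nb G C h.choose)) else a
  have hF1 : ∀ u ∈ A, F1 (l3 u) = Φ (nb G C u) := by
    intro u hu
    have hex : ∃ w ∈ A, l3 w = l3 u := ⟨u, hu, rfl⟩
    have e : F1 (l3 u) = l3 (R (nb G C hex.choose)) := by
      simp only [F1, dif_pos hex]
    rw [e, hsameA _ hex.choose_spec.1 _ hu hex.choose_spec.2, hΦ3 u hu]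
  have hF1' : ∀ a, (¬ ∃ u ∈ A, l3 u = a) → F1 a = a := by
    intro a ha
    simp only [F1, dif_neg ha]
  have hF1i : ∀ a, F1 (F1 a) = F1 a := by
    intro a
    by_cases ha : ∃ u ∈ A, l3 u = a
    · obtain ⟨u, hu, rfl⟩ := ha
      have e1 : F1 (l3 u) = l3 (R (nb G C u)) := by rw [hF1 u hu, hΦ3 u hu]
      rw [e1, hF1 _ (hRA _), hR1 u hu, hΦ3 u hu]
    · rw [hF1' a ha, hF1' a ha]
  let F2 : Fin (2 * k) → Fin (2 * k) := fun a =>
    if h : ∃ u ∈ B, l3 u = a then Φ (nb G C h.choose) else a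
  have hF2 : ∀ u ∈ B, F2 (l3 u) = Φ (nb G C u) := by
    intro u hu
    have hex : ∃ w ∈ B, l3 w = l3 u := ⟨u, hu, rfl⟩
    have e : F2 (l3 u) = Φ (nb G C hex.choose) := by
      simp only [F2, dif_pos hex]
    rw [e, hsameB _ hex.choose_spec.1 _ hu hex.choose_spec.2]
  have hF2' : ∀ a, (¬ ∃ u ∈ B, l3 u = a) → F2 a = a := by
    intro a ha
    simp only [F2, dif_neg ha]
  have hF2low : ∀ a : Fin (2 * k), (a : ℕ) < k → F2 a = a := by
    intro a ha
    refine hF2' a ?_
    rintro ⟨u, hu, rfl⟩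
    have := hhigh u hu
    omega
  have hF2i : ∀ a, F2 (F2 a) = F2 a := by
    intro a
    by_cases ha : ∃ u ∈ B, l3 u = a
    · obtain ⟨u, hu, rfl⟩ := ha
      rw [hF2 u hu, hF2low _ (hΦ1 u (Or.inr hu))]
    · rw [hF2' a ha, hF2' a ha]
  refine ⟨fun v => F2 (F1 (l3 v)), (c4.comp F1 hF1i).comp F2 hF2i, ?_⟩
  have hfin : ∀ u ∈ C, F2 (F1 (l3 u)) = Φ (nb G C u) := by
    rintro u (hu | hu)
    · rw [hF1 u hu, hF2low _ (hΦ1 u (Or.inl hu))]
    · rw [hF1' (l3 u), hF2 u hu]
      rintro ⟨w, hw, e⟩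
      have a1 := hlow w hw
      have a2 := hhigh u hu
      rw [e] at a1
      omega
  constructor
  · intro u hu
    simp only [hfin u hu]
    exact hΦ1 u hu
  · intro u hu w hw e
    simp only [hfin u hu, hfin w hw] at e
    exact hΦ2 ⟨u, hu, rfl⟩ ⟨w, hw, rfl⟩ e

theorem step_nlc {k : ℕ} {G : SimpleGraph V} {A B : Set V} (hk : 0 < k) (hA : A.Finite)
    (hB : B.Finite) (hd : Disjoint A B)
    (h1 : ∃ l, NBS (2 * k) A G l ∧ Ok k G A l) (h2 : ∃ l, NBS (2 * k) B G l ∧ Ok k G B l)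
    (hc : cnt G (A ∪ B) ≤ k) : ∃ l, NBS (2 * k) (A ∪ B) G l ∧ Ok k G (A ∪ B) l := by
  obtain ⟨l1, hb1, hl1⟩ := h1
  obtain ⟨l2, hb2, hl2⟩ := h2
  set C := A ∪ B with hC
  let l3 : V → Fin (2 * k) := fun v => if v ∈ A then l1 v else up k (l2 v)
  have h3A : ∀ u ∈ A, l3 u = l1 u := fun u hu => if_pos hu
  have h3B : ∀ u ∈ B, l3 u = up k (l2 u) := fun u hu =>
    if_neg (fun h => Set.disjoint_left.1 hd h hu)
  have c1 : NBS (2 * k) A G l3 := hb1.congr (fun u hu w hw => Iff.rfl)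
    (fun u hu => (h3A u hu).symm)
  have c2 : NBS (2 * k) B G l3 := (hb2.comp (up k)).congr
    (fun u hu w hw => Iff.rfl) (fun u hu => (h3B u hu).symm)
  have c3 : NBS (2 * k) C G l3 := c1.union c2 hd
    (fun a b => ∃ u ∈ A, ∃ w ∈ B, l3 u = a ∧ l3 w = b ∧ G.Adj u w) (by
      intro u hu w hw
      constructor
      · intro h
        exact ⟨u, hu, w, hw, rfl, rfl, h⟩
      · rintro ⟨u', hu', w', hw', e1, e2, h⟩
        rw [h3A u hu, h3A u' hu'] at e1
        rw [h3B w hw, h3B w' hw'] at e2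
        exact adj_of_label hl1 hl2 hd hu' hu hw' hw e1
          (up_inj (hl2.1 w' hw') (hl2.1 w hw) e2) h)
  have hlow : ∀ u ∈ A, (l3 u : ℕ) < k := fun u hu => by rw [h3A u hu]; exact hl1.1 u hu
  have hhigh : ∀ u ∈ B, k ≤ (l3 u : ℕ) := fun u hu => by rw [h3B u hu]; exact up_ge _
  have hsame : ∀ u ∈ C, ∀ w ∈ C, l3 u = l3 w → nb G C u = nb G C w := by
    rintro u (hu | hu) w (hw | hw) e
    · rw [h3A u hu, h3A w hw] at e
      exact nb_union_of_left G (hl1.2 u hu w hw e)
    · have a1 := hlow u hu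
      have a2 := hhigh w hw
      rw [e] at a1
      omega
    · have a1 := hlow w hw
      have a2 := hhigh u hu
      rw [e] at a2
      omega
    · rw [h3B u hu, h3B w hw] at e
      exact nb_union_of_right G (hl2.2 u hu w hw (up_inj (hl2.1 u hu) (hl2.1 w hw) e))
  obtain ⟨Φ, hΦ1, hΦ2, _⟩ := exists_label (hA.union hB) hk (∅ : Set V) (Set.empty_subset _) hc
    (fun S => ⟨0, by omega⟩) (fun u hu => absurd hu (Set.notMem_empty u)) (by
      rintro _ ⟨u, hu, rfl⟩
      exact absurd hu (Set.notMem_empty u))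
  let F : Fin (2 * k) → Fin (2 * k) := fun a =>
    if h : ∃ u ∈ C, l3 u = a then Φ (nb G C h.choose) else a
  have hF : ∀ u ∈ C, F (l3 u) = Φ (nb G C u) := by
    intro u hu
    have hex : ∃ w ∈ C, l3 w = l3 u := ⟨u, hu, rfl⟩
    have e : F (l3 u) = Φ (nb G C hex.choose) := by
      simp only [F, dif_pos hex]
    rw [e, hsame _ hex.choose_spec.1 _ hu hex.choose_spec.2]
  refine ⟨fun v => F (l3 v), c3.comp F, ?_, ?_⟩
  · intro u hu
    simp only [hF u hu]
    exact hΦ1 u hu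
  · intro u hu w hw e
    simp only [hF u hu, hF w hw] at e
    exact hΦ2 ⟨u, hu, rfl⟩ ⟨w, hw, rfl⟩ e

theorem cnt_singleton (G : SimpleGraph V) (v : V) : cnt G {v} = 1 := by
  unfold cnt
  rw [Set.image_singleton, Set.ncard_singleton]

theorem TL.pos {k : ℕ} {G : SimpleGraph V} {A : Set V} (h : TL (fun A => cnt G A ≤ k) A) :
    0 < k := by
  induction h with
  | single v hv =>
    rw [cnt_singleton] at hv
    omega
  | union A B _ _ _ _ ih1 _ => exact ih1

theorem TL.nonempty {P : Set V → Prop} {A : Set V} (h : TL P A) : A.Nonempty := by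
  induction h with
  | single v _ => exact Set.singleton_nonempty v
  | union A B _ _ _ _ ih1 _ => exact ih1.mono Set.subset_union_left

theorem ok_single {k : ℕ} (hk : 0 < k) (G : SimpleGraph V) (v : V) :
    Ok k G {v} (fun _ => (⟨0, by omega⟩ : Fin (2 * k))) := by
  constructor
  · intro u _
    exact hk
  · rintro u hu w hw _
    rw [Set.mem_singleton_iff.1 hu, Set.mem_singleton_iff.1 hw]

theorem cbs_of_tl {k : ℕ} {G : SimpleGraph V} {A : Set V} (h : TL (fun A => cnt G A ≤ k) A) :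
    ∃ l, CBS (2 * k) A G l ∧ Ok k G A l := by
  have hk := h.pos
  induction h with
  | single v _ => exact ⟨_, CBS.single v G _, ok_single hk G v⟩
  | union A B hd hA hB hc ih1 ih2 =>
    exact step_cw hk hA.finite hB.finite hd hA.nonempty ih1 ih2 hc

theorem nbs_of_tl {k : ℕ} {G : SimpleGraph V} {A : Set V} (h : TL (fun A => cnt G A ≤ k) A) :
    ∃ l, NBS (2 * k) A G l ∧ Ok k G A l := by
  have hk := h.pos
  induction h with
  | single v _ => exact ⟨_, NBS.single v G _, ok_single hk G v⟩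
  | union A B hd hA hB hc ih1 ih2 =>
    exact step_nlc hk hA.finite hB.finite hd ih1 ih2 hc

/-- Clique-width is at most twice the module-width. -/
theorem cwLE_of_mwLE {V : Type} [Nonempty V] {G : SimpleGraph V} {k : ℕ} (h : MwLE G k) :
    CwLE G (2 * k) := by
  rcases h with h | h
  · exact absurd h (not_isEmpty_of_nonempty V)
  · obtain ⟨l, ⟨W, G', l', e, hb, he, hr, ha, _⟩, _⟩ := cbs_of_tl h
    have hsurj : Function.Surjective e := Set.range_eq_univ.1 hr
    refine ⟨W, G', l', hb, ⟨?_⟩⟩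
    exact (RelIso.mk (Equiv.ofBijective e ⟨he, hsurj⟩) (fun {x y} => (ha x y).symm) :
      G' ≃g G).symm

/-- NLC-width is at most twice the module-width. -/
theorem nlcLE_of_mwLE {V : Type} [Nonempty V] {G : SimpleGraph V} {k : ℕ} (h : MwLE G k) :
    NlcLE G (2 * k) := by
  rcases h with h | h
  · exact absurd h (not_isEmpty_of_nonempty V)
  · obtain ⟨l, ⟨W, G', l', e, hb, he, hr, ha, _⟩, _⟩ := nbs_of_tl h
    have hsurj : Function.Surjective e := Set.range_eq_univ.1 hr
    refine ⟨W, G', l', hb, ⟨?_⟩⟩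
    exact (RelIso.mk (Equiv.ofBijective e ⟨he, hsurj⟩) (fun {x y} => (ha x y).symm) :
      G' ≃g G).symm

end Pool.Agent.R545.Mw
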