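import Pool.Agent.R545.Lc.State
import Pool.Agent.Helper856.Cw.Width

/-!
# Module-width, NLC-width and clique-width: definitions
-/

namespace Pool.Agent.R545.Mw

open Classical Pool.Agent.R545.Lc

/-- The set `A` is the root of a binary tree whose leaves are single vertices and all of whose
nodes (vertex sets) have the property `P`. -/
inductive TL {V : Type} (P : Set V → Prop) : Set V → Prop
  | single (v : V) : P {v} → TL P {v}
  | union (A B : Set V) : Disjoint A B → TL P A → TL P B → P (A ∪ B) → TL P (A ∪ B)

/-- `G` has module-width at most `k`: there is a binary tree with the vertices as leaves such that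
for every node `x`, the vertices below `x` have at most `k` different neighbourhoods outside of
the set of vertices below `x`. Graphs without vertices are included. -/
def MwLE {V : Type} (G : SimpleGraph V) (k : ℕ) : Prop :=
  IsEmpty V ∨ TL (fun A => cnt G A ≤ k) Set.univ

/-- The module-width. -/
noncomputable def moduleWidth {V : Type} (G : SimpleGraph V) : ℕ := sInf {k | MwLE G k}

/-- The class `NLC_k` of labelled graphs: single vertices, relabellings by arbitrary maps, and
compositions `G ×_S H`: the disjoint union together with all edges between a vertex of `G` with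
label `a` and a vertex of `H` with label `b`, where `(a, b) ∈ S`. -/
inductive NlcBuilt (k : ℕ) : ∀ V : Type, SimpleGraph V → (V → Fin k) → Prop
  | single (a : Fin k) : NlcBuilt k Unit ⊥ (fun _ => a)
  | relabel (V : Type) (G : SimpleGraph V) (l : V → Fin k) (R : Fin k → Fin k) :
      NlcBuilt k V G l → NlcBuilt k V G (fun v => R (l v))
  | comp (V W : Type) (G : SimpleGraph V) (H : SimpleGraph W) (l : V → Fin k) (m : W → Fin k)
      (S : Fin k → Fin k → Prop) : NlcBuilt k V G l → NlcBuilt k W H m →
      NlcBuilt k (V ⊕ W) (cg G H (fun v w => S (l v) (m w))) (Sum.elim l m)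

/-- `G` has NLC-width at most `k`. -/
def NlcLE {V : Type} (G : SimpleGraph V) (k : ℕ) : Prop :=
  ∃ (W : Type) (G' : SimpleGraph W) (l : W → Fin k), NlcBuilt k W G' l ∧ Nonempty (G ≃g G')

/-- The NLC-width. -/
noncomputable def nlcWidth {V : Type} (G : SimpleGraph V) : ℕ := sInf {k | NlcLE G k}

/-- Binary shapes whose nodes are decorated by elements of `β`. -/
inductive Sh (β : Type) : Type
  | leaf : β → Sh β
  | node : β → Sh β → Sh β → Sh β

/-- The number of leaves of a shape. -/
def Sh.leaves {β : Type} : Sh β → ℕ
  | .leaf _ => 1
  | .node _ s t => s.leaves + t.leaves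

/-- All decorations have the property `p`. -/
def Sh.All {β : Type} (p : β → Prop) : Sh β → Prop
  | .leaf b => p b
  | .node b s t => p b ∧ s.All p ∧ t.All p

/-- The shapes are equal and the decorations are related by `R`. -/
inductive Sh.Rel {β γ : Type} (R : β → γ → Prop) : Sh β → Sh γ → Prop
  | leaf {b : β} {c : γ} : R b c → Sh.Rel R (.leaf b) (.leaf c)
  | node {b : β} {c : γ} {s t : Sh β} {s' t' : Sh γ} : R b c → Sh.Rel R s s' → Sh.Rel R t t' →
      Sh.Rel R (.node b s t) (.node c s' t')

/-- A chain of sets from `A` to `C`, whose increments have the property `D`; the word lists the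
values of `f` at the sets of the chain. -/
inductive Seg {V α : Type} (D : Set V → Prop) (f : Set V → α) : Set V → List α → Set V → Prop
  | nil (A : Set V) : Seg D f A [f A] A
  | cons {A B C : Set V} {w : List α} : Disjoint A B → D B → Seg D f (A ∪ B) w C →
      Seg D f A (f A :: w) C

/-- The shape of words is realised by a tree of chains with top set `A`. -/
inductive Real {V α : Type} (D : Set V → Prop) (f : Set V → α) : Sh (List α) → Set V → Prop
  | leaf {A C : Set V} {w : List α} : D A → Seg D f A w C → Real D f (.leaf w) C
  | node {A B C : Set V} {w : List α} {s t : Sh (List α)} : Disjoint A B → Real D f s A →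
      Real D f t B → Seg D f (A ∪ B) w C → Real D f (.node w s t) C

end Pool.Agent.R545.Mw
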