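import Pool.Agent.R545.Mw.Index
import Pool.Agent.R545.Lc.Final

/-!
# Recognising graphs of bounded module-width, and the factor two
-/

namespace Pool.Agent.R545.Mw

open Classical Pool.Agent.R545.Lc Pool.Agent.Helper856.Lcw Pool.Agent.Helper856.Cw
  Pool.Agent.H333R2.Col Pool.Agent.H622R2 Pool.Agent.NPC

theorem MwLE.mono {V : Type} {G : SimpleGraph V} {k k' : ℕ} (h : MwLE G k) (hk : k ≤ k') :
    MwLE G k' := by
  rcases h with h | h
  · exact Or.inl h
  · right
    have : ∀ {A : Set V}, TL (fun A => cnt G A ≤ k) A → TL (fun A => cnt G A ≤ k') A := by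
      intro A hA
      induction hA with
      | single v hv => exact TL.single v (hv.trans hk)
      | union A B hd _ _ hAB ih1 ih2 => exact TL.union A B hd ih1 ih2 (hAB.trans hk)
    exact this h

theorem exists_mwLE {V : Type} [Finite V] (G : SimpleGraph V) : ∃ k, MwLE G k := by
  rcases isEmpty_or_nonempty V with hV | hV
  · exact ⟨0, Or.inl hV⟩
  · obtain ⟨k, hk⟩ := exists_lcwLE G
    exact ⟨k, mwLE_of_cwLE (cwLE_of_lcwLE hk)⟩

theorem moduleWidth_le_iff {V : Type} [Finite V] {G : SimpleGraph V} {k : ℕ} :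
    moduleWidth G ≤ k ↔ MwLE G k := by
  constructor
  · intro h
    have h1 : MwLE G (moduleWidth G) := Nat.sInf_mem (s := {k | MwLE G k}) (exists_mwLE G)
    exact h1.mono h
  · exact fun h => Nat.sInf_le h

theorem cwBuilt_nonempty {k : ℕ} {W : Type} {G' : SimpleGraph W} {l : W → Fin k}
    (hb : CwBuilt k W G' l) : Nonempty W := by
  induction hb with
  | single i => exact ⟨()⟩
  | union V W G H l m _ _ ih _ => exact ⟨Sum.inl ih.some⟩
  | join V G l i j _ _ ih => exact ih
  | relabel V G l i j _ ih => exact ih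

theorem nlcBuilt_nonempty {k : ℕ} {W : Type} {G' : SimpleGraph W} {l : W → Fin k}
    (hb : NlcBuilt k W G' l) : Nonempty W := by
  induction hb with
  | single i => exact ⟨()⟩
  | comp V W G H l m S _ _ ih _ => exact ⟨Sum.inl ih.some⟩
  | relabel V G l R _ ih => exact ih

theorem cliqueWidth_empty {V : Type} [IsEmpty V] (G : SimpleGraph V) : cliqueWidth G = 0 := by
  have : {k | CwLE G k} = ∅ := by
    rw [Set.eq_empty_iff_forall_notMem]
    rintro k ⟨W, G', l, hb, ⟨e⟩⟩
    exact IsEmpty.false (e.symm (cwBuilt_nonempty hb).some)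
  unfold cliqueWidth
  rw [this, Nat.sInf_empty]

theorem nlcWidth_empty {V : Type} [IsEmpty V] (G : SimpleGraph V) : nlcWidth G = 0 := by
  have : {k | NlcLE G k} = ∅ := by
    rw [Set.eq_empty_iff_forall_notMem]
    rintro k ⟨W, G', l, hb, ⟨e⟩⟩
    exact IsEmpty.false (e.symm (nlcBuilt_nonempty hb).some)
  unfold nlcWidth
  rw [this, Nat.sInf_empty]

theorem moduleWidth_empty {V : Type} [IsEmpty V] (G : SimpleGraph V) : moduleWidth G = 0 :=
  Nat.le_zero.mp (moduleWidth_le_iff.mpr (Or.inl inferInstance))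

theorem moduleWidth_le_cliqueWidth {V : Type} [Finite V] (G : SimpleGraph V) :
    moduleWidth G ≤ cliqueWidth G := by
  rcases isEmpty_or_nonempty V with hV | hV
  · rw [moduleWidth_empty]
    exact Nat.zero_le _
  · obtain ⟨k, hk⟩ := exists_lcwLE G
    have h1 : CwLE G (cliqueWidth G) :=
      Nat.sInf_mem (s := {k | CwLE G k}) ⟨k, cwLE_of_lcwLE hk⟩
    exact moduleWidth_le_iff.mpr (mwLE_of_cwLE h1)

theorem cliqueWidth_le_two_mul {V : Type} [Finite V] (G : SimpleGraph V) :
    cliqueWidth G ≤ 2 * moduleWidth G := by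
  rcases isEmpty_or_nonempty V with hV | hV
  · rw [cliqueWidth_empty]
    exact Nat.zero_le _
  · exact Nat.sInf_le (cwLE_of_mwLE (moduleWidth_le_iff.mp le_rfl))

theorem nlcWidth_le_two_mul {V : Type} [Finite V] (G : SimpleGraph V) :
    nlcWidth G ≤ 2 * moduleWidth G := by
  rcases isEmpty_or_nonempty V with hV | hV
  · rw [nlcWidth_empty]
    exact Nat.zero_le _
  · exact Nat.sInf_le (nlcLE_of_mwLE (moduleWidth_le_iff.mp le_rfl))

theorem nlcLE_nlcWidth {V : Type} [Finite V] [Nonempty V] (G : SimpleGraph V) :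
    NlcLE G (nlcWidth G) :=
  Nat.sInf_mem (s := {k | NlcLE G k}) ⟨_, nlcLE_of_mwLE (moduleWidth_le_iff.mp le_rfl)⟩

theorem moduleWidth_le_nlcWidth {V : Type} [Finite V] (G : SimpleGraph V) :
    moduleWidth G ≤ nlcWidth G := by
  rcases isEmpty_or_nonempty V with hV | hV
  · rw [moduleWidth_empty]
    exact Nat.zero_le _
  · exact moduleWidth_le_iff.mpr (mwLE_of_nlcLE (nlcLE_nlcWidth G))

theorem hasSplits_of_moduleWidth {V : Type} [Finite V] {G : SimpleGraph V} {k : ℕ}
    (h : moduleWidth G ≤ k) : HasSplits (2 * k + 1) G := by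
  refine (hasSplits_of_cliqueWidth (c := 2 * k) ?_).mono (by omega)
  have := cliqueWidth_le_two_mul G
  omega

/-- For every `k`, the graphs of module-width at most `k` can be recognised in polynomial
time. -/
theorem mw_inPP (k : ℕ) :
    InPP (fun M : List (List Bool) => moduleWidth (matGraph M) ≤ k) := by
  obtain ⟨m, χ, δ, acc, hδ, hacc⟩ := exists_machineP (mwLE_isoInv k) (finIndex_mw typical' k)
    (2 ^ (6 * (2 * k + 1)))
  exact inPP_of_finite_state (2 * k + 1) m (2 ^ (6 * (2 * k + 1))) (by omega) rfl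
    (fun V G => moduleWidth G ≤ k) χ δ
    (fun X V W _ G G1 G2 i j l l1 l2 s f1 f2 => hδ X V W G G1 G2 i j l l1 l2 s f1 f2) acc
    (fun V _ G l => moduleWidth_le_iff.trans (hacc V G l))
    (fun V _ G h => hasSplits_of_moduleWidth h)

end Pool.Agent.R545.Mw
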