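import Pool.Agent.R545.Mw.Pure
import Pool.Agent.R545.Lc.Index

/-!
# From a tree to a common shape of bounded size
-/

namespace Pool.Agent.R545.Mw

open Classical Pool.Agent.R545.Lc

section Walks

variable {α β : Type} {R : α → β → Prop}

theorem NW.snoc_left {x : List α} {y : List β} (h : NW R x y) {a : α} {b : β} (hab : R a b) :
    ∀ y', y = y' ++ [b] → NW R (x ++ [a]) y := by
  induction h with
  | @single a0 b0 h0 =>
    intro y' hy
    cases y' with
    | nil =>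
      simp only [List.nil_append, List.cons.injEq, and_true] at hy
      subst hy
      exact NW.left h0 (NW.single hab)
    | cons c y' => simp at hy
  | left h0 _ ih => exact fun y' hy => NW.left h0 (ih y' hy)
  | @right a0 b0 x y h0 hw ih =>
    intro y' hy
    cases y' with
    | nil =>
      simp only [List.nil_append, List.cons.injEq] at hy
      exact absurd hy.2 hw.ne2
    | cons c y' =>
      simp only [List.cons_append, List.cons.injEq] at hy
      exact NW.right h0 (ih y' hy.2)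

theorem NW.snoc_right {x : List α} {y : List β} (h : NW R x y) {a : α} {b : β} (hab : R a b)
    (x' : List α) (hx : x = x' ++ [a]) : NW R x (y ++ [b]) :=
  (NW.snoc_left (R := fun b a => R a b) h.swap hab x' hx).swap

end Walks

section Segs

variable {V α : Type} {D : Set V → Prop} {f : Set V → α}

theorem Seg.snoc {A C : Set V} {w : List α} (h : Seg D f A w C) {B : Set V}
    (hd : Disjoint C B) (hB : D B) : Seg D f A (w ++ [f (C ∪ B)]) (C ∪ B) := by
  induction h with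
  | nil A => exact Seg.cons hd hB (Seg.nil _)
  | cons hd' hB' _ ih => exact Seg.cons hd' hB' (ih hd)

theorem Seg.last {A C : Set V} {w : List α} (h : Seg D f A w C) : ∃ w', w = w' ++ [f C] := by
  induction h with
  | nil A => exact ⟨[], rfl⟩
  | @cons A B C w _ _ _ ih =>
    obtain ⟨w', rfl⟩ := ih
    exact ⟨f A :: w', rfl⟩

end Segs

section Exh

variable {V L : Type}

/-- The exhausted labels. -/
def exh (lam : V → L) (A : Set V) : Set L := {l | l ∈ lam '' Set.univ ∧ l ∉ lam '' Aᶜ}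

theorem exh_mono (lam : V → L) {A B : Set V} (h : A ⊆ B) : exh lam A ⊆ exh lam B := by
  rintro l ⟨h1, h2⟩
  exact ⟨h1, fun h3 => h2 (Set.image_mono (Set.compl_subset_compl.mpr h) h3)⟩

theorem exh_disj (lam : V → L) {A B : Set V} (h : Disjoint A B) :
    Disjoint (exh lam A) (exh lam B) := by
  rw [Set.disjoint_left]
  rintro l ⟨⟨v, _, rfl⟩, h2⟩ ⟨_, h3⟩
  have hA : v ∈ A := by
    by_contra hv
    exact h2 ⟨v, hv, rfl⟩
  have hB : v ∈ B := by
    by_contra hv
    exact h3 ⟨v, hv, rfl⟩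
  exact Set.disjoint_left.mp h hA hB

theorem exh_add [Finite L] (lam : V → L) {A B : Set V} (h : Disjoint A B) :
    (exh lam A).ncard + (exh lam B).ncard ≤ (exh lam (A ∪ B)).ncard := by
  rw [← Set.ncard_union_eq (exh_disj lam h)]
  exact Set.ncard_le_ncard (Set.union_subset (exh_mono lam Set.subset_union_left)
    (exh_mono lam Set.subset_union_right)) (Set.toFinite _)

theorem exh_zero [Finite L] {lam : V → L} {A : Set V} (h : (exh lam A).ncard = 0) :
    lam '' Set.univ ⊆ lam '' Aᶜ := by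
  rw [Set.ncard_eq_zero] at h
  intro l hl
  by_contra h2
  have : l ∈ exh lam A := ⟨hl, h2⟩
  rw [h] at this
  exact this

theorem exh_le [Finite L] (lam : V → L) (A : Set V) : (exh lam A).ncard ≤ Nat.card L := by
  rw [← Set.ncard_univ]
  exact Set.ncard_le_ncard (Set.subset_univ _) (Set.toFinite _)

end Exh

section Rank

variable {P : Type} [PartialOrder P] [Finite P]

/-- The number of smaller elements. -/
noncomputable def rkp (d : P) : ℕ := {e | e < d}.ncard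

theorem rkp_lt {d e : P} (h : d < e) : rkp d < rkp e := by
  unfold rkp
  refine Set.ncard_lt_ncard ?_ (Set.toFinite _)
  refine ⟨fun x hx => lt_trans hx h, fun h2 => ?_⟩
  exact lt_irrefl d (h2 h)

theorem rkp_mono {d e : P} (h : d ≤ e) : rkp d ≤ rkp e := by
  rcases eq_or_lt_of_le h with rfl | h
  · exact le_rfl
  · exact (rkp_lt h).le

theorem rkp_le (d : P) : rkp d ≤ Nat.card P := by
  unfold rkp
  rw [← Set.ncard_univ]
  exact Set.ncard_le_ncard (Set.subset_univ _) (Set.toFinite _)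

end Rank

/-- The bound for the number of leaves. -/
def bndF (e h : ℕ) : ℕ := max 1 (e * (h + 2))

theorem bndF_one (e h : ℕ) : 1 ≤ bndF e h := le_max_left _ _

theorem bndF_two {e h : ℕ} (he : 1 ≤ e) : 2 ≤ bndF e h := by
  unfold bndF
  refine le_trans ?_ (le_max_right _ _)
  nlinarith

theorem bndF_mono {e e' h h' : ℕ} (he : e ≤ e') (hh : h ≤ h') : bndF e h ≤ bndF e' h' := by
  unfold bndF
  exact max_le_max le_rfl (Nat.mul_le_mul he (by omega))

theorem bndF_eq {e h : ℕ} (he : 1 ≤ e) : bndF e h = e * (h + 2) := by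
  unfold bndF
  refine max_eq_right ?_
  nlinarith

theorem bndF_add {e1 e2 e h1 h2 h : ℕ} (he1 : 1 ≤ e1) (he2 : 1 ≤ e2) (he : e1 + e2 ≤ e)
    (hh1 : h1 ≤ h) (hh2 : h2 ≤ h) : bndF e1 h1 + bndF e2 h2 ≤ bndF e h := by
  rw [bndF_eq he1, bndF_eq he2, bndF_eq (by omega)]
  calc e1 * (h1 + 2) + e2 * (h2 + 2) ≤ e1 * (h + 2) + e2 * (h + 2) :=
        Nat.add_le_add (Nat.mul_le_mul le_rfl (by omega)) (Nat.mul_le_mul le_rfl (by omega))
    _ = (e1 + e2) * (h + 2) := by ring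
    _ ≤ e * (h + 2) := Nat.mul_le_mul he le_rfl

theorem bndF_succ {e e' h h' : ℕ} (he' : 1 ≤ e') (he : e' ≤ e) (hh : h' < h) :
    1 + bndF e' h' ≤ bndF e h := by
  rw [bndF_eq he', bndF_eq (he'.trans he)]
  calc 1 + e' * (h' + 2) ≤ e' + e' * (h' + 2) := by omega
    _ = e' * (h' + 1 + 2) := by ring
    _ ≤ e * (h + 2) := Nat.mul_le_mul he (by omega)

section

variable {V W X L M : Type} {G : SimpleGraph X} {G1 : SimpleGraph V} {G2 : SimpleGraph W}
  {i : V → X} {j : W → X} {lam1 : V → L} {lam2 : W → M} {r : L → M → Prop} {k : ℕ} [Finite X]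

/-- Pure trees of the first side. -/
abbrev D1 (G1 : SimpleGraph V) (lam1 : V → L) (r : L → M → Prop) (k : ℕ) (F2 : Set M) :
    Set V → Prop := TL (fun B => alpha G1 lam1 r B F2 ≤ k)

/-- A common shape with at most `n` leaves. -/
def Gd (G1 : SimpleGraph V) (G2 : SimpleGraph W) (lam1 : V → L) (lam2 : W → M)
    (r : L → M → Prop) (k n : ℕ) (A1 : Set V) (A2 : Set W) : Prop :=
  ∃ (s : Sh (List (Letter L M))) (t : Sh (List (Letter M L))),
        Real (D1 G1 lam1 r k (lam2 '' Set.univ)) (node G1 lam1 r) s A1 ∧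
        Real (D1 G2 lam2 (fun m l => r l m) k (lam1 '' Set.univ))
          (node G2 lam2 (fun m l => r l m)) t A2 ∧
        Sh.Rel (NW (okL k r)) s t ∧ s.leaves ≤ n

theorem Gd.mono {n m : ℕ} {A1 : Set V} {A2 : Set W} (h : Gd G1 G2 lam1 lam2 r k n A1 A2)
    (hnm : n ≤ m) : Gd G1 G2 lam1 lam2 r k m A1 A2 := by
  obtain ⟨s, t, h1, h2, h3, h4⟩ := h
  exact ⟨s, t, h1, h2, h3, h4.trans hnm⟩

theorem gd_leaf (h : Glued G G1 G2 i j (fun v w => r (lam1 v) (lam2 w))) {A1 : Set V}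
    {A2 : Set W} (h1 : D1 G1 lam1 r k (lam2 '' Set.univ) A1)
    (h2 : D1 G2 lam2 (fun m l => r l m) k (lam1 '' Set.univ) A2)
    (h3 : cnt G (i '' A1 ∪ j '' A2) ≤ k) : Gd G1 G2 lam1 lam2 r k 1 A1 A2 :=
  ⟨_, _, Real.leaf h1 (Seg.nil _), Real.leaf h2 (Seg.nil _),
    Sh.Rel.leaf (NW.single ((okL_node h A1 A2).mpr h3)), le_rfl⟩

theorem gd_node (h : Glued G G1 G2 i j (fun v w => r (lam1 v) (lam2 w))) {n m : ℕ}
    {A1 B1 : Set V} {A2 B2 : Set W} (hA : Gd G1 G2 lam1 lam2 r k n A1 A2)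
    (hB : Gd G1 G2 lam1 lam2 r k m B1 B2) (hd1 : Disjoint A1 B1) (hd2 : Disjoint A2 B2)
    (h3 : cnt G (i '' (A1 ∪ B1) ∪ j '' (A2 ∪ B2)) ≤ k) :
    Gd G1 G2 lam1 lam2 r k (n + m) (A1 ∪ B1) (A2 ∪ B2) := by
  obtain ⟨s, t, a1, a2, a3, a4⟩ := hA
  obtain ⟨s', t', b1, b2, b3, b4⟩ := hB
  refine ⟨_, _, Real.node hd1 a1 b1 (Seg.nil _), Real.node hd2 a2 b2 (Seg.nil _),
    Sh.Rel.node (NW.single ((okL_node h _ _).mpr h3)) a3 b3, ?_⟩
  simp only [Sh.leaves]
  omega

theorem gd_left (h : Glued G G1 G2 i j (fun v w => r (lam1 v) (lam2 w))) {n : ℕ}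
    {A1 B : Set V} {A2 : Set W} (hA : Gd G1 G2 lam1 lam2 r k n A1 A2) (hd : Disjoint A1 B)
    (hB : D1 G1 lam1 r k (lam2 '' Set.univ) B)
    (h3 : cnt G (i '' (A1 ∪ B) ∪ j '' A2) ≤ k) : Gd G1 G2 lam1 lam2 r k n (A1 ∪ B) A2 := by
  have hok := (okL_node (r := r) (lam1 := lam1) (lam2 := lam2) (c := k) h _ _).mpr h3
  obtain ⟨s, t, a1, a2, a3, a4⟩ := hA
  cases a3 with
  | leaf hw =>
    cases a1 with
    | leaf hx hseg =>
      cases a2 with
      | leaf hy hseg' =>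
        obtain ⟨y', hy'⟩ := hseg'.last
        exact ⟨_, _, Real.leaf hx (hseg.snoc hd hB), Real.leaf hy hseg',
          Sh.Rel.leaf (NW.snoc_left hw hok y' hy'), a4⟩
  | node hw hw1 hw2 =>
    cases a1 with
    | node hx c1 c2 hseg =>
      cases a2 with
      | node hy e1 e2 hseg' =>
        obtain ⟨y', hy'⟩ := hseg'.last
        exact ⟨_, _, Real.node hx c1 c2 (hseg.snoc hd hB), Real.node hy e1 e2 hseg',
          Sh.Rel.node (NW.snoc_left hw hok y' hy') hw1 hw2, a4⟩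

theorem gd_right (h : Glued G G1 G2 i j (fun v w => r (lam1 v) (lam2 w))) {n : ℕ}
    {A1 : Set V} {A2 B : Set W} (hA : Gd G1 G2 lam1 lam2 r k n A1 A2) (hd : Disjoint A2 B)
    (hB : D1 G2 lam2 (fun m l => r l m) k (lam1 '' Set.univ) B)
    (h3 : cnt G (i '' A1 ∪ j '' (A2 ∪ B)) ≤ k) : Gd G1 G2 lam1 lam2 r k n A1 (A2 ∪ B) := by
  have hok := (okL_node (r := r) (lam1 := lam1) (lam2 := lam2) (c := k) h _ _).mpr h3
  obtain ⟨s, t, a1, a2, a3, a4⟩ := hA
  cases a3 with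
  | leaf hw =>
    cases a1 with
    | leaf hx hseg =>
      cases a2 with
      | leaf hy hseg' =>
        obtain ⟨y', hy'⟩ := hseg.last
        exact ⟨_, _, Real.leaf hx hseg, Real.leaf hy (hseg'.snoc hd hB),
          Sh.Rel.leaf (NW.snoc_right hw hok y' hy'), a4⟩
  | node hw hw1 hw2 =>
    cases a1 with
    | node hx c1 c2 hseg =>
      cases a2 with
      | node hy e1 e2 hseg' =>
        obtain ⟨y', hy'⟩ := hseg.last
        exact ⟨_, _, Real.node hx c1 c2 hseg, Real.node hy e1 e2 (hseg'.snoc hd hB),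
          Sh.Rel.node (NW.snoc_right hw hok y' hy') hw1 hw2, a4⟩

variable (G G1 G2 i j lam1 lam2 r k) in
/-- What we know about a node of the tree. -/
structure Inv [Finite L] [Finite M] (A1 : Set V) (A2 : Set W) : Prop where
  p1 : A1.Nonempty → (exh lam2 A2).ncard = 0 → D1 G1 lam1 r k (lam2 '' Set.univ) A1
  p2 : A2.Nonempty → (exh lam1 A1).ncard = 0 →
    D1 G2 lam2 (fun m l => r l m) k (lam1 '' Set.univ) A2
  ne : A1.Nonempty ∨ A2.Nonempty
  ct : cnt G (i '' A1 ∪ j '' A2) ≤ k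
  gd : A1.Nonempty → A2.Nonempty → Gd G1 G2 lam1 lam2 r k
    (bndF ((exh lam1 A1).ncard + (exh lam2 A2).ncard) (rkp (dat G1 lam1 r A1) +
      rkp (dat G2 lam2 (fun m l => r l m) A2))) A1 A2

theorem exh_empty (lam : V → L) : (exh lam ∅).ncard = 0 := by
  have : exh lam ∅ = ∅ := by
    rw [Set.eq_empty_iff_forall_notMem]
    rintro l ⟨h1, h2⟩
    rw [Set.compl_empty] at h2
    exact h2 h1
  rw [this, Set.ncard_empty]

/-- One of the two children is pure. -/
theorem step_pure [Finite L] [Finite M]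
    (h : Glued G G1 G2 i j (fun v w => r (lam1 v) (lam2 w)))
    {B1 C1 : Set V} {B2 C2 : Set W} (hB : Inv G G1 G2 i j lam1 lam2 r k B1 B2)
    (hC : Inv G G1 G2 i j lam1 lam2 r k C1 C2) (hd1 : Disjoint B1 C1) (hd2 : Disjoint B2 C2)
    (hc : cnt G (i '' (B1 ∪ C1) ∪ j '' (B2 ∪ C2)) ≤ k)
    (hn1 : (B1 ∪ C1).Nonempty) (hn2 : (B2 ∪ C2).Nonempty) (hp : B2 = ∅ ∨ B1 = ∅) :
    Gd G1 G2 lam1 lam2 r k (bndF ((exh lam1 (B1 ∪ C1)).ncard + (exh lam2 (B2 ∪ C2)).ncard)
      (rkp (dat G1 lam1 r (B1 ∪ C1)) + rkp (dat G2 lam2 (fun m l => r l m) (B2 ∪ C2))))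
      (B1 ∪ C1) (B2 ∪ C2) := by
  have hmono : bndF ((exh lam1 C1).ncard + (exh lam2 C2).ncard)
      (rkp (dat G1 lam1 r C1) + rkp (dat G2 lam2 (fun m l => r l m) C2)) ≤
      bndF ((exh lam1 (B1 ∪ C1)).ncard + (exh lam2 (B2 ∪ C2)).ncard)
      (rkp (dat G1 lam1 r (B1 ∪ C1)) + rkp (dat G2 lam2 (fun m l => r l m) (B2 ∪ C2))) := by
    refine bndF_mono ?_ ?_
    · exact Nat.add_le_add
        (Set.ncard_le_ncard (exh_mono lam1 Set.subset_union_right) (Set.toFinite _))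
        (Set.ncard_le_ncard (exh_mono lam2 Set.subset_union_right) (Set.toFinite _))
    · exact Nat.add_le_add (rkp_mono (dat_mono _ _ _ Set.subset_union_right))
        (rkp_mono (dat_mono _ _ _ Set.subset_union_right))
  rcases hp with rfl | rfl
  · have hB1 : B1.Nonempty := by
      rcases hB.ne with h | h
      · exact h
      · exact absurd h Set.not_nonempty_empty
    have hD := hB.p1 hB1 (exh_empty lam2)
    rw [Set.empty_union] at hn2
    rcases C1.eq_empty_or_nonempty with rfl | hC1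
    · have hD2 := hC.p2 hn2 (exh_empty lam1)
      rw [Set.union_empty, Set.empty_union] at hc ⊢
      exact (gd_leaf h hD hD2 hc).mono (bndF_one _ _)
    · have h1 := (hC.gd hC1 hn2).mono hmono
      rw [Set.empty_union, Set.union_comm B1] at hc h1 ⊢
      exact gd_left h h1 hd1.symm hD hc
  · have hB2 : B2.Nonempty := by
      rcases hB.ne with h | h
      · exact absurd h Set.not_nonempty_empty
      · exact h
    have hD := hB.p2 hB2 (exh_empty lam1)
    rw [Set.empty_union] at hn1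
    rcases C2.eq_empty_or_nonempty with rfl | hC2
    · have hD2 := hC.p1 hn1 (exh_empty lam2)
      rw [Set.union_empty, Set.empty_union] at hc ⊢
      exact (gd_leaf h hD2 hD hc).mono (bndF_one _ _)
    · have h1 := (hC.gd hn1 hC2).mono hmono
      rw [Set.empty_union, Set.union_comm B2] at hc h1 ⊢
      exact gd_right h h1 hd2.symm hD hc

/-- Both children are mixed, and the first one exhausts no label. -/
theorem step_zero [Finite L] [Finite M]
    (h : Glued G G1 G2 i j (fun v w => r (lam1 v) (lam2 w)))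
    {B1 C1 : Set V} {B2 C2 : Set W} (hB : Inv G G1 G2 i j lam1 lam2 r k B1 B2)
    (hC : Inv G G1 G2 i j lam1 lam2 r k C1 C2) (hd1 : Disjoint B1 C1) (hd2 : Disjoint B2 C2)
    (hc : cnt G (i '' (B1 ∪ C1) ∪ j '' (B2 ∪ C2)) ≤ k)
    (hB1 : B1.Nonempty) (hB2 : B2.Nonempty) (hC1 : C1.Nonempty) (hC2 : C2.Nonempty)
    (he : (exh lam1 B1).ncard + (exh lam2 B2).ncard = 0)
    (he' : 1 ≤ (exh lam1 (B1 ∪ C1)).ncard + (exh lam2 (B2 ∪ C2)).ncard) :
    Gd G1 G2 lam1 lam2 r k (bndF ((exh lam1 (B1 ∪ C1)).ncard + (exh lam2 (B2 ∪ C2)).ncard)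
      (rkp (dat G1 lam1 r (B1 ∪ C1)) + rkp (dat G2 lam2 (fun m l => r l m) (B2 ∪ C2))))
      (B1 ∪ C1) (B2 ∪ C2) := by
  have hDB1 := hB.p1 hB1 (by omega)
  have hDB2 := hB.p2 hB2 (by omega)
  have hgB := gd_leaf h hDB1 hDB2 hB.ct
  by_cases hC0 : (exh lam1 C1).ncard + (exh lam2 C2).ncard = 0
  · have hgC := gd_leaf h (hC.p1 hC1 (by omega)) (hC.p2 hC2 (by omega)) hC.ct
    exact (gd_node h hgB hgC hd1 hd2 hc).mono (bndF_two he')
  have hle1 : dat G1 lam1 r C1 ≤ dat G1 lam1 r (B1 ∪ C1) := dat_mono _ _ _ Set.subset_union_right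
  have hle2 : dat G2 lam2 (fun m l => r l m) C2 ≤ dat G2 lam2 (fun m l => r l m) (B2 ∪ C2) :=
    dat_mono _ _ _ Set.subset_union_right
  have hee : (exh lam1 C1).ncard + (exh lam2 C2).ncard ≤
      (exh lam1 (B1 ∪ C1)).ncard + (exh lam2 (B2 ∪ C2)).ncard := Nat.add_le_add
        (Set.ncard_le_ncard (exh_mono lam1 Set.subset_union_right) (Set.toFinite _))
        (Set.ncard_le_ncard (exh_mono lam2 Set.subset_union_right) (Set.toFinite _))
  by_cases hdat : dat G1 lam1 r C1 = dat G1 lam1 r (B1 ∪ C1) ∧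
      dat G2 lam2 (fun m l => r l m) C2 = dat G2 lam2 (fun m l => r l m) (B2 ∪ C2)
  · -- the data do not change
    obtain ⟨e1, e2⟩ := hdat
    have hgC := (hC.gd hC1 hC2).mono (bndF_mono hee
      (Nat.add_le_add (rkp_mono hle1) (rkp_mono hle2)))
    have ok1 := (okL_node (r := r) (lam1 := lam1) (lam2 := lam2) (c := k) h C1 C2).mpr hC.ct
    have ok2 := (okL_node (r := r) (lam1 := lam1) (lam2 := lam2) (c := k) h
      (B1 ∪ C1) (B2 ∪ C2)).mpr hc
    have key : cnt G (i '' (B1 ∪ C1) ∪ j '' C2) ≤ k ∨ cnt G (i '' C1 ∪ j '' (B2 ∪ C2)) ≤ k := by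
      rw [← okL_node (r := r) (lam1 := lam1) (lam2 := lam2) h,
        ← okL_node (r := r) (lam1 := lam1) (lam2 := lam2) h]
      unfold okL node at *
      simp only [e1, e2] at *
      omega
    rcases key with key | key
    · rw [Set.union_comm B1] at key hc hgC ⊢
      rw [Set.union_comm B2] at hc hgC ⊢
      exact gd_right h (gd_left h hgC hd1.symm hDB1 key) hd2.symm hDB2 hc
    · rw [Set.union_comm B1] at hc hgC ⊢
      rw [Set.union_comm B2] at key hc hgC ⊢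
      exact gd_left h (gd_right h hgC hd2.symm hDB2 key) hd1.symm hDB1 hc
  · -- the data change
    have hlt : rkp (dat G1 lam1 r C1) + rkp (dat G2 lam2 (fun m l => r l m) C2) <
        rkp (dat G1 lam1 r (B1 ∪ C1)) + rkp (dat G2 lam2 (fun m l => r l m) (B2 ∪ C2)) := by
      rcases eq_or_lt_of_le hle1 with e1 | e1
      · rcases eq_or_lt_of_le hle2 with e2 | e2
        · exact absurd ⟨e1, e2⟩ hdat
        · exact Nat.add_lt_add_of_le_of_lt (rkp_mono hle1) (rkp_lt e2)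
      · exact Nat.add_lt_add_of_lt_of_le (rkp_lt e1) (rkp_mono hle2)
    exact (gd_node h hgB (hC.gd hC1 hC2) hd1 hd2 hc).mono (bndF_succ (by omega) hee hlt)

theorem step_all [Finite L] [Finite M]
    (h : Glued G G1 G2 i j (fun v w => r (lam1 v) (lam2 w)))
    {B1 C1 : Set V} {B2 C2 : Set W} (hB : Inv G G1 G2 i j lam1 lam2 r k B1 B2)
    (hC : Inv G G1 G2 i j lam1 lam2 r k C1 C2) (hd1 : Disjoint B1 C1) (hd2 : Disjoint B2 C2)
    (hc : cnt G (i '' (B1 ∪ C1) ∪ j '' (B2 ∪ C2)) ≤ k)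
    (hn1 : (B1 ∪ C1).Nonempty) (hn2 : (B2 ∪ C2).Nonempty)
    (hp1 : (exh lam2 (B2 ∪ C2)).ncard = 0 → D1 G1 lam1 r k (lam2 '' Set.univ) (B1 ∪ C1))
    (hp2 : (exh lam1 (B1 ∪ C1)).ncard = 0 →
      D1 G2 lam2 (fun m l => r l m) k (lam1 '' Set.univ) (B2 ∪ C2)) :
    Gd G1 G2 lam1 lam2 r k (bndF ((exh lam1 (B1 ∪ C1)).ncard + (exh lam2 (B2 ∪ C2)).ncard)
      (rkp (dat G1 lam1 r (B1 ∪ C1)) + rkp (dat G2 lam2 (fun m l => r l m) (B2 ∪ C2))))
      (B1 ∪ C1) (B2 ∪ C2) := by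
  by_cases he : (exh lam1 (B1 ∪ C1)).ncard + (exh lam2 (B2 ∪ C2)).ncard = 0
  · exact (gd_leaf h (hp1 (by omega)) (hp2 (by omega)) hc).mono (bndF_one _ _)
  by_cases hpB : B2 = ∅ ∨ B1 = ∅
  · exact step_pure h hB hC hd1 hd2 hc hn1 hn2 hpB
  by_cases hpC : C2 = ∅ ∨ C1 = ∅
  · rw [Set.union_comm B1, Set.union_comm B2] at *
    exact step_pure h hC hB hd1.symm hd2.symm hc hn1 hn2 hpC
  push Not at hpB hpC
  obtain ⟨hB2, hB1⟩ := hpB
  obtain ⟨hC2, hC1⟩ := hpC
  by_cases heB : (exh lam1 B1).ncard + (exh lam2 B2).ncard = 0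
  · exact step_zero h hB hC hd1 hd2 hc hB1 hB2 hC1 hC2 heB (by omega)
  by_cases heC : (exh lam1 C1).ncard + (exh lam2 C2).ncard = 0
  · rw [Set.union_comm B1, Set.union_comm B2] at *
    exact step_zero h hC hB hd1.symm hd2.symm hc hC1 hC2 hB1 hB2 heC (by omega)
  · refine (gd_node h (hB.gd hB1 hB2) (hC.gd hC1 hC2) hd1 hd2 hc).mono ?_
    have a1 := exh_add lam1 hd1
    have a2 := exh_add lam2 hd2
    refine bndF_add (by omega) (by omega) (by omega) ?_ ?_
    · exact Nat.add_le_add (rkp_mono (dat_mono _ _ _ Set.subset_union_left))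
        (rkp_mono (dat_mono _ _ _ Set.subset_union_left))
    · exact Nat.add_le_add (rkp_mono (dat_mono _ _ _ Set.subset_union_right))
        (rkp_mono (dat_mono _ _ _ Set.subset_union_right))

theorem inv_of_tl [Finite L] [Finite M]
    (h : Glued G G1 G2 i j (fun v w => r (lam1 v) (lam2 w))) {A : Set X}
    (hA : TL (fun A => cnt G A ≤ k) A) : ∀ (A1 : Set V) (A2 : Set W), A = i '' A1 ∪ j '' A2 →
      Inv G G1 G2 i j lam1 lam2 r k A1 A2 := by
  have hp1 : ∀ {A : Set X}, TL (fun A => cnt G A ≤ k) A → ∀ (A1 : Set V) (A2 : Set W),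
      A = i '' A1 ∪ j '' A2 → A1.Nonempty → (exh lam2 A2).ncard = 0 →
      D1 G1 lam1 r k (lam2 '' Set.univ) A1 := fun hA A1 A2 he hne h0 =>
    tl_restrict h hA A1 A2 he hne (exh_zero h0)
  have hp2 : ∀ {A : Set X}, TL (fun A => cnt G A ≤ k) A → ∀ (A1 : Set V) (A2 : Set W),
      A = i '' A1 ∪ j '' A2 → A2.Nonempty → (exh lam1 A1).ncard = 0 →
      D1 G2 lam2 (fun m l => r l m) k (lam1 '' Set.univ) A2 := fun hA A1 A2 he hne h0 =>
    tl_restrict (r := fun m l => r l m) (lam1 := lam2) (lam2 := lam1) h.swap hA A2 A1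
      (by rw [he, Set.union_comm]) hne (exh_zero h0)
  induction hA with
  | single x hx =>
    intro A1 A2 he
    have hx' : TL (fun A => cnt G A ≤ k) {x} := TL.single x hx
    refine ⟨hp1 hx' A1 A2 he, hp2 hx' A1 A2 he, ?_, ?_, ?_⟩
    · rcases h.cover x with ⟨v, hv⟩ | ⟨w, hw⟩
      · left
        refine ⟨v, ?_⟩
        rw [← h.mem1 A1 A2, ← he, hv]
        rfl
      · right
        refine ⟨w, ?_⟩
        rw [← h.mem2 A1 A2, ← he, hw]
        rfl
    · rw [← he]; exact hx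
    · rintro ⟨v, hv⟩ ⟨w, hw⟩
      exfalso
      have h1 : i v ∈ ({x} : Set X) := by rw [he]; exact Or.inl ⟨v, hv, rfl⟩
      have h2 : j w ∈ ({x} : Set X) := by rw [he]; exact Or.inr ⟨w, hw, rfl⟩
      exact h.disj v w (h1.trans h2.symm)
  | union Y Z hd hY hZ hYZ ihY ihZ =>
    intro A1 A2 hA
    have hT : TL (fun A => cnt G A ≤ k) (Y ∪ Z) := TL.union Y Z hd hY hZ hYZ
    set B1 := i ⁻¹' Y
    set B2 := j ⁻¹' Y
    set C1 := i ⁻¹' Z
    set C2 := j ⁻¹' Z
    have hYe : Y = i '' B1 ∪ j '' B2 := by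
      ext x
      rcases h.cover x with ⟨v, rfl⟩ | ⟨w, rfl⟩
      · rw [h.mem1]; rfl
      · rw [h.mem2]; rfl
    have hZe : Z = i '' C1 ∪ j '' C2 := by
      ext x
      rcases h.cover x with ⟨v, rfl⟩ | ⟨w, rfl⟩
      · rw [h.mem1]; rfl
      · rw [h.mem2]; rfl
    have hA1 : A1 = B1 ∪ C1 := by
      ext v
      rw [← h.mem1 A1 A2, ← hA]
      rfl
    have hA2 : A2 = B2 ∪ C2 := by
      ext v
      rw [← h.mem2 A1 A2, ← hA]
      rfl
    have hd1 : Disjoint B1 C1 := by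
      rw [Set.disjoint_left]
      exact fun v hv hv' => Set.disjoint_left.mp hd hv hv'
    have hd2 : Disjoint B2 C2 := by
      rw [Set.disjoint_left]
      exact fun v hv hv' => Set.disjoint_left.mp hd hv hv'
    have iB := ihY B1 B2 hYe
    have iC := ihZ C1 C2 hZe
    refine ⟨hp1 hT A1 A2 hA, hp2 hT A1 A2 hA, ?_, ?_, ?_⟩
    · rw [hA1, hA2]
      rcases iB.ne with h | h
      · exact Or.inl h.inl
      · exact Or.inr h.inl
    · rw [← hA]; exact hYZ
    · intro hn1 hn2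
      have hc : cnt G (i '' A1 ∪ j '' A2) ≤ k := by rw [← hA]; exact hYZ
      have q1 := hp1 hT A1 A2 hA hn1
      have q2 := hp2 hT A1 A2 hA hn2
      rw [hA1] at hn1 hc q1 q2 ⊢
      rw [hA2] at hn2 hc q1 q2 ⊢
      exact step_all h iB iC hd1 hd2 hc hn1 hn2 q1 q2

end

/-- From a tree to a common shape of bounded size. -/
theorem real_of_tl (k : ℕ) (L M : Type) [Finite L] [Finite M] : ∃ N : ℕ,
    ∀ (V W X : Type) [Finite X] (G : SimpleGraph X) (G1 : SimpleGraph V) (G2 : SimpleGraph W)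
      (i : V → X) (j : W → X) (lam1 : V → L) (lam2 : W → M) (r : L → M → Prop),
      Glued G G1 G2 i j (fun v w => r (lam1 v) (lam2 w)) → ∀ (A : Set X),
      TL (fun A => cnt G A ≤ k) A → ∀ (A1 : Set V) (A2 : Set W), A = i '' A1 ∪ j '' A2 →
      A1.Nonempty → A2.Nonempty → ∃ (s : Sh (List (Letter L M))) (t : Sh (List (Letter M L))),
        Real (TL (fun B => alpha G1 lam1 r B (lam2 '' Set.univ) ≤ k)) (node G1 lam1 r) s A1 ∧
        Real (TL (fun B => alpha G2 lam2 (fun m l => r l m) B (lam1 '' Set.univ) ≤ k))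
          (node G2 lam2 (fun m l => r l m)) t A2 ∧
        Sh.Rel (NW (okL k r)) s t ∧ s.leaves ≤ N := by
  refine ⟨bndF (Nat.card L + Nat.card M) (Nat.card (Dat L M) + Nat.card (Dat M L)), ?_⟩
  intro V W X _ G G1 G2 i j lam1 lam2 r hg A hA A1 A2 he hn1 hn2
  exact ((inv_of_tl hg hA A1 A2 he).gd hn1 hn2).mono (bndF_mono
    (Nat.add_le_add (exh_le _ _) (exh_le _ _)) (Nat.add_le_add (rkp_le _) (rkp_le _)))

end Pool.Agent.R545.Mw
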