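import Pool.Agent.R545.Mw.Machine
import Pool.Agent.R545.Mw.Trunk
import Pool.Agent.R545.Mw.Bounds

/-!
# Module-width: finite index
-/

namespace Pool.Agent.R545.Mw

open Classical Pool.Agent.R545.Lc

variable {V W X L M : Type}

theorem MwLE.finite {G : SimpleGraph V} {k : ℕ} (h : MwLE G k) : Finite V := by
  rcases h with h | h
  · infer_instance
  · exact Set.finite_univ_iff.mp h.finite

theorem cnt_iso {V' : Type} {G : SimpleGraph V} {G' : SimpleGraph V'} (e : G ≃g G') (A : Set V) :
    cnt G' (e '' A) = cnt G A := by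
  have h1 : ∀ v, nb G' (e '' A) (e v) = e '' (nb G A v) := by
    intro v
    ext x
    obtain ⟨y, rfl⟩ := e.surjective x
    rw [e.injective.mem_set_image]
    simp only [nb, Set.mem_ofPred_eq, e.injective.mem_set_image,
      SimpleGraph.Iso.map_adj_iff]
  unfold cnt
  rw [Set.image_image]
  have h2 : (fun v => nb G' (e '' A) (e v)) '' A = (fun s => e '' s) '' (nb G A '' A) := by
    rw [Set.image_image]
    simp only [h1]
  rw [h2]
  exact Set.ncard_image_of_injective _ (Set.image_injective.mpr e.injective)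

theorem TL.iso {V' : Type} {G : SimpleGraph V} {G' : SimpleGraph V'} (e : G ≃g G') {k : ℕ}
    {A : Set V} (h : TL (fun A => cnt G A ≤ k) A) : TL (fun A => cnt G' A ≤ k) (e '' A) := by
  induction h with
  | single v hv =>
    have h1 := cnt_iso e {v}
    rw [Set.image_singleton] at h1 ⊢
    exact TL.single (e v) (by rw [h1]; exact hv)
  | union A B hd _ _ hAB ih1 ih2 =>
    have h1 := cnt_iso e (A ∪ B)
    rw [Set.image_union] at h1 ⊢
    refine TL.union _ _ ?_ ih1 ih2 (by rw [h1]; exact hAB)
    exact (Set.disjoint_image_iff e.injective).mpr hd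

theorem mwLE_isoInv (k : ℕ) : IsoInv (fun _ G => MwLE G k) := by
  rintro V V' G G' ⟨e⟩ (h | h)
  · exact Or.inl e.symm.toEquiv.isEmpty
  · right
    have h1 := TL.iso e h
    rwa [Set.image_univ_of_surjective e.surjective] at h1

/-! ### Finitely many decorated shapes -/

theorem Sh.leaves_pos {β : Type} (s : Sh β) : 1 ≤ s.leaves := by
  induction s with
  | leaf b => exact le_rfl
  | node b s t ih1 ih2 =>
    simp only [Sh.leaves]
    omega

theorem finite_shapes {β : Type} {S : Set β} (hS : S.Finite) (n : ℕ) :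
    {τ : Sh β | τ.leaves ≤ n ∧ τ.All (fun b => b ∈ S)}.Finite := by
  induction n with
  | zero =>
    refine Set.Finite.subset Set.finite_empty ?_
    rintro τ ⟨h, -⟩
    have := τ.leaves_pos
    omega
  | succ n ih =>
    refine ((hS.image Sh.leaf).union
      ((hS.prod (ih.prod ih)).image (fun p => Sh.node p.1 p.2.1 p.2.2))).subset ?_
    rintro τ ⟨h1, h2⟩
    cases τ with
    | leaf b => exact Or.inl ⟨b, h2, rfl⟩
    | node b s t =>
      simp only [Sh.leaves] at h1
      have hs := s.leaves_pos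
      have ht := t.leaves_pos
      have h3 : s.leaves ≤ n := by omega
      have h4 : t.leaves ≤ n := by omega
      exact Or.inr ⟨(b, s, t), ⟨h2.1, ⟨h3, h2.2.1⟩, ⟨h4, h2.2.2⟩⟩, rfl⟩

section Char

variable {P Q : Type} [PartialOrder P] [PartialOrder Q]

theorem exists_char_sh {c N n : ℕ} {o : P → Q → ℕ}
    (hN : ∀ p q, c + o p q < N) {T : Set (List (P × ℕ))}
    (hT : ∀ x : List (P × ℕ), x ≠ [] → Mono x → (∀ p ∈ x, p.2 < N + 1) → ∃ y ∈ T, Eqw x y)
    (hn : ∀ s : Finset Q, s.card ≤ n) {s : Sh (List (P × (Q → ℕ)))}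
    {t : Sh (List (Q × (P → ℕ)))} (h : Sh.Rel (NW (okG c o)) s t) :
    s.All Mono → t.All Mono → ∃ τ : Sh (List (Q × List (P × ℕ))), τ.leaves = s.leaves ∧
      τ.All (fun z => z.length ≤ n ∧ ∀ p ∈ z, p ∈ {p : Q × List (P × ℕ) | p.2 ∈ T}) ∧
      Sh.Rel (Ch N) s τ ∧ ∀ s', Sh.Rel (Ch N) s' τ → Sh.Rel (NW (okG c o)) s' t := by
  induction h with
  | @leaf x y hxy =>
    intro hs ht
    obtain ⟨z, h1, -, h2, h3, h4⟩ := exists_char hN hT n y hxy.ne2 ht (hn _) x hs hxy
    refine ⟨Sh.leaf z, rfl, ⟨h1, h2⟩, Sh.Rel.leaf h3, ?_⟩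
    intro s' hs'
    cases hs' with
    | leaf h => exact Sh.Rel.leaf (h4 _ h)
  | @node x y s1 s2 t1 t2 hxy _ _ ih1 ih2 =>
    intro hs ht
    obtain ⟨z, h1, -, h2, h3, h4⟩ := exists_char hN hT n y hxy.ne2 ht.1 (hn _) x hs.1 hxy
    obtain ⟨τ1, a1, a2, a3, a4⟩ := ih1 hs.2.1 ht.2.1
    obtain ⟨τ2, b1, b2, b3, b4⟩ := ih2 hs.2.2 ht.2.2
    refine ⟨Sh.node z τ1 τ2, by simp only [Sh.leaves]; omega, ⟨⟨h1, h2⟩, a2, b2⟩,
      Sh.Rel.node h3 a3 b3, ?_⟩
    intro s' hs'
    cases hs' with
    | node h h' h'' => exact Sh.Rel.node (h4 _ h) (a4 _ h') (b4 _ h'')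

end Char

theorem seg_ge {G : SimpleGraph V} {lam : V → L} {r : L → M → Prop} {D : Set V → Prop}
    {A C : Set V} {w : List (Letter L M)} (h : Seg D (node G lam r) A w C) :
    ∀ p ∈ w, dat G lam r A ≤ p.1 := by
  induction h with
  | nil A =>
    intro p hp
    rw [List.mem_singleton] at hp
    rw [hp]
    exact le_refl _
  | @cons A B C w _ _ _ ih =>
    intro p hp
    rw [List.mem_cons] at hp
    rcases hp with rfl | hp
    · exact le_refl _
    · exact (dat_mono G lam r Set.subset_union_left).trans (ih p hp)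

theorem seg_mono {G : SimpleGraph V} {lam : V → L} {r : L → M → Prop} {D : Set V → Prop}
    {A C : Set V} {w : List (Letter L M)} (h : Seg D (node G lam r) A w C) : Mono w := by
  induction h with
  | nil A => unfold Mono; simp
  | @cons A B C w _ _ h ih =>
    unfold Mono at ih ⊢
    rw [List.map_cons, List.pairwise_cons]
    refine ⟨?_, ih⟩
    intro q hq
    rw [List.mem_map] at hq
    obtain ⟨p, hp, rfl⟩ := hq
    exact (dat_mono G lam r Set.subset_union_left).trans (seg_ge h p hp)

theorem real_mono {G : SimpleGraph V} {lam : V → L} {r : L → M → Prop} {D : Set V → Prop}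
    {C : Set V} {s : Sh (List (Letter L M))} (h : Real D (node G lam r) s C) : s.All Mono := by
  induction h with
  | leaf _ hw => exact seg_mono hw
  | node _ _ _ hw ih1 ih2 => exact ⟨seg_mono hw, ih1, ih2⟩

theorem seg_finite {α : Type} {P : Set V → Prop} {f : Set V → α} {A C : Set V} {w : List α}
    (h : Seg (TL P) f A w C) : A.Finite → C.Finite := by
  induction h with
  | nil A => exact id
  | cons _ hB _ ih => exact fun hA => ih (hA.union hB.finite)

theorem real_finite {α : Type} {P : Set V → Prop} {f : Set V → α} {C : Set V} {s : Sh (List α)}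
    (h : Real (TL P) f s C) : C.Finite := by
  induction h with
  | leaf hA hw => exact seg_finite hw hA.finite
  | node _ _ _ hw ih1 ih2 => exact seg_finite hw (ih1.union ih2)

theorem finIndex_mw (hTyp : Typical) (k : ℕ) : FinIndex (fun _ G => MwLE G k) := by
  intro L _
  set r : L → Set L → Prop := fun a s => a ∈ s with hr
  set P := Dat L (Set L)
  set Q := Dat (Set L) L
  obtain ⟨N, hN⟩ : ∃ N, ∀ (p : P) (q : Q), k + ov r p q < N := by
    obtain ⟨m, hm⟩ := (Set.finite_range (fun z : P × Q => ov r z.1 z.2)).bddAbove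
    refine ⟨k + m + 1, fun p q => ?_⟩
    have := hm ⟨(p, q), rfl⟩
    simp only at this
    omega
  obtain ⟨T, hTf, hT⟩ := hTyp P (N + 1)
  obtain ⟨R, hR⟩ := real_of_tl k L (Set L)
  set n := Nat.card Q with hn
  have hnQ : ∀ s : Finset Q, s.card ≤ n := by
    intro s
    have : Fintype Q := Fintype.ofFinite Q
    rw [hn, Nat.card_eq_fintype_card]
    exact Finset.card_le_univ _
  set TT : Set (List (Q × List (P × ℕ))) := {t | t.length ≤ n ∧ ∀ p ∈ t, p ∈
    {p : Q × List (P × ℕ) | p.2 ∈ T}} with hTT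
  have hTTf : TT.Finite := by
    refine finite_lists ?_ n
    have : {p : Q × List (P × ℕ) | p.2 ∈ T} = Set.univ ×ˢ T := by
      ext p
      simp
    rw [this]
    exact Set.Finite.prod (Set.toFinite _) hTf
  set TS : Set (Sh (List (Q × List (P × ℕ)))) := {τ | τ.leaves ≤ R ∧ τ.All (fun b => b ∈ TT)}
    with hTS
  have hTSf : Finite TS := finite_shapes hTTf R
  refine ⟨Set L × (Set (Set L) → Prop) × (Set (Set L) → Set TS), inferInstance,
    fun V G lam => (lam '' Set.univ,
      fun F2 => TL (fun B => alpha G lam r B F2 ≤ k) Set.univ,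
      fun F2 => {τ | ∃ s, Real (TL (fun B => alpha G lam r B F2 ≤ k)) (node G lam r) s Set.univ ∧
        Sh.Rel (Ch N) s τ.1}), ?_⟩
  intro V V' W X X' G1 lam1 G1' lam1' G2 lam2 G G' i j i' j' hg hg' he hl
  simp only [Prod.mk.injEq] at he
  obtain ⟨he1, he2, he3⟩ := he
  have hX := hl.finite
  have hW : Finite W := Finite.of_injective j hg.inj2
  have hcov' : ∀ (C1 : Set V') (C2 : Set W), C1 = Set.univ → C2 = Set.univ →
      i' '' C1 ∪ j' '' C2 = Set.univ := by
    rintro C1 C2 rfl rfl
    ext x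
    rcases hg'.cover x with ⟨v, rfl⟩ | ⟨w, rfl⟩ <;> simp
  have hfinX' : Finite V' → Finite X' := by
    intro hV'
    refine Finite.of_surjective (Sum.elim i' j') ?_
    intro x
    rcases hg'.cover x with ⟨v, rfl⟩ | ⟨w, rfl⟩
    · exact ⟨Sum.inl v, rfl⟩
    · exact ⟨Sum.inr w, rfl⟩
  have hemp : IsEmpty V ↔ IsEmpty V' := by
    rw [← Set.univ_eq_empty_iff, ← Set.image_eq_empty (f := lam1), he1, Set.image_eq_empty,
      Set.univ_eq_empty_iff]
  rcases isEmpty_or_nonempty V with hV | hV
  · -- the first side is empty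
    have hV' := hemp.mp hV
    have hX' := hfinX' inferInstance
    rcases isEmpty_or_nonempty W with hW' | hW'
    · left
      refine ⟨fun x => ?_⟩
      rcases hg'.cover x with ⟨v, -⟩ | ⟨w, -⟩
      · exact isEmptyElim v
      · exact isEmptyElim w
    · rcases hl with hl | hl
      · exact (hl.false (j hW'.some)).elim
      · right
        have h1 := tl_restrict (r := fun m l => r l m) (lam1 := lam2) (lam2 := lam1) hg.swap hl
          Set.univ ∅ (by
            ext x
            rcases hg.cover x with ⟨v, rfl⟩ | ⟨w, rfl⟩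
            · exact isEmptyElim v
            · simp) Set.univ_nonempty (by simp)
        have h2 : lam1 '' Set.univ = lam1' '' Set.univ := he1
        rw [h2] at h1
        have h3 := tl_pure (r := fun m l => r l m) (lam1 := lam2) (lam2 := lam1') hg'.swap h1
        have h4 : j' '' (Set.univ : Set W) = Set.univ := by
          ext x
          rcases hg'.cover x with ⟨v, rfl⟩ | ⟨w, rfl⟩
          · exact isEmptyElim v
          · simp
        rwa [h4] at h3
  · have hV' : Nonempty V' := by
      rw [← not_isEmpty_iff, ← hemp, not_isEmpty_iff]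
      exact hV
    right
    have hl' : TL (fun A => cnt G A ≤ k) Set.univ := by
      rcases hl with hl | hl
      · exact (hl.false (i hV.some)).elim
      · exact hl
    rcases isEmpty_or_nonempty W with hW' | hW'
    · have h1 := tl_restrict (r := r) hg hl' Set.univ ∅ (by
            ext x
            rcases hg.cover x with ⟨v, rfl⟩ | ⟨w, rfl⟩
            · simp
            · exact isEmptyElim w) Set.univ_nonempty (by simp)
      have h2 := congrFun he2 (lam2 '' Set.univ)
      rw [h2] at h1
      have hX' := hfinX' (Set.finite_univ_iff.mp h1.finite)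
      have h3 := tl_pure (r := r) (lam1 := lam1') (lam2 := lam2) hg' h1
      have h4 : i' '' (Set.univ : Set V') = Set.univ := by
        ext x
        rcases hg'.cover x with ⟨v, rfl⟩ | ⟨w, rfl⟩
        · simp
        · exact isEmptyElim w
      rwa [h4] at h3
    · obtain ⟨s, t, hs, ht, hst, hle⟩ := hR V W X G G1 G2 i j lam1 lam2 r hg Set.univ hl'
        Set.univ Set.univ (by
          ext x
          rcases hg.cover x with ⟨v, rfl⟩ | ⟨w, rfl⟩ <;> simp) Set.univ_nonempty
          Set.univ_nonempty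
      have hst' : Sh.Rel (NW (okG k (fun p q => ov r p q))) s t := hst
      obtain ⟨τ, a1, a2, a3, a4⟩ := exists_char_sh (c := k) (N := N) (n := n)
        (o := fun p q => ov r p q) hN (T := T) hT hnQ hst' (real_mono hs) (real_mono ht)
      have hτ : τ ∈ TS := ⟨by omega, a2⟩
      have h5 := congrFun he3 (lam2 '' Set.univ)
      have h6 : (⟨τ, hτ⟩ : TS) ∈ {τ : TS | ∃ s, Real (TL (fun B => alpha G1 lam1 r B
          (lam2 '' Set.univ) ≤ k)) (node G1 lam1 r) s Set.univ ∧ Sh.Rel (Ch N) s τ.1} :=
        ⟨s, hs, a3⟩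
      rw [h5] at h6
      obtain ⟨s', hs', ha'⟩ := h6
      have hX' := hfinX' (Set.finite_univ_iff.mp (real_finite hs'))
      have h7 : lam1 '' Set.univ = lam1' '' Set.univ := he1
      rw [h7] at ht
      have h8 := tl_of_real (r := r) (lam1 := lam1') (lam2 := lam2) hg' hs' ht (a4 s' ha')
      rwa [hcov' _ _ rfl rfl] at h8

end Pool.Agent.R545.Mw
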