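import Pool.Agent.R545.Lc.State

/-!
# The finite state machine of an isomorphism-invariant graph property whose gluing congruence has
finite index
-/

namespace Pool.Agent.R545.Mw

open Classical Pool.Agent.R545.Lc

variable {V W X L M : Type}

/-- A glued graph is isomorphic to the canonical one. -/
noncomputable def gluedIso {G : SimpleGraph X} {G1 : SimpleGraph V} {G2 : SimpleGraph W}
    {i : V → X} {j : W → X} {r : V → W → Prop} (h : Glued G G1 G2 i j r) :
    cg G1 G2 r ≃g G where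
  toEquiv := Equiv.ofBijective (Sum.elim i j) (by
    constructor
    · rintro (a | a) (b | b) hab
      · rw [h.inj1 hab]
      · exact absurd hab (h.disj a b)
      · exact absurd hab.symm (h.disj b a)
      · rw [h.inj2 hab]
    · intro x
      rcases h.cover x with ⟨v, rfl⟩ | ⟨w, rfl⟩
      · exact ⟨Sum.inl v, rfl⟩
      · exact ⟨Sum.inr w, rfl⟩)
  map_rel_iff' := by
    rintro (a | a) (b | b)
    · exact h.adj1 a b
    · exact h.adj12 a b
    · show G.Adj (j a) (i b) ↔ r b a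
      rw [G.adj_comm]
      exact h.adj12 b a
    · exact h.adj2 a b

/-- Isomorphism invariance. -/
def IsoInv (Φ : ∀ V : Type, SimpleGraph V → Prop) : Prop :=
  ∀ (V V' : Type) (G : SimpleGraph V) (G' : SimpleGraph V'), Nonempty (G ≃g G') → Φ V G → Φ V' G'

/-- The gluing congruence has finite index. -/
def FinIndex (Φ : ∀ V : Type, SimpleGraph V → Prop) : Prop :=
  ∀ (L : Type) [Finite L], ∃ (I : Type) (_ : Finite I) (ch : ∀ V : Type, SimpleGraph V → (V → L) → I),
      ∀ (V V' W X X' : Type) (G1 : SimpleGraph V) (lam1 : V → L) (G1' : SimpleGraph V')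
        (lam1' : V' → L) (G2 : SimpleGraph W) (lam2 : W → Set L) (G : SimpleGraph X)
        (G' : SimpleGraph X') (i : V → X) (j : W → X) (i' : V' → X') (j' : W → X'),
        Glued G G1 G2 i j (fun v w => lam1 v ∈ lam2 w) →
        Glued G' G1' G2 i' j' (fun v w => lam1' v ∈ lam2 w) →
        ch V G1 lam1 = ch V' G1' lam1' → Φ X G → Φ X' G'

section

variable {Φ : ∀ V : Type, SimpleGraph V → Prop} (hI : IsoInv Φ)

include hI in
/-- Gluing is unique up to isomorphism. -/
theorem phi_congr {X' : Type} {G : SimpleGraph X} {G' : SimpleGraph X'}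
    {G1 : SimpleGraph V} {G2 : SimpleGraph W} {i : V → X} {j : W → X} {i' : V → X'} {j' : W → X'}
    {r : V → W → Prop} (h : Glued G G1 G2 i j r) (h' : Glued G' G1 G2 i' j' r)
    (hl : Φ X G) : Φ X' G' :=
  hI _ _ _ _ ⟨(gluedIso h).symm.trans (gluedIso h')⟩ hl

/-- The labelled graphs cannot be distinguished by gluing. -/
def EqvP (Φ : ∀ V : Type, SimpleGraph V → Prop) {V V' : Type} (G : SimpleGraph V) (lam : V → L) (G' : SimpleGraph V')
    (lam' : V' → L) : Prop :=
  ∀ (W : Type) (G2 : SimpleGraph W) (lam2 : W → Set L),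
    Φ _ (cg G G2 (fun v w => lam v ∈ lam2 w)) ↔
      Φ _ (cg G' G2 (fun v w => lam' v ∈ lam2 w))

variable {V' X' : Type}

theorem EqvP.refl (G : SimpleGraph V) (lam : V → L) : EqvP Φ G lam G lam := fun _ _ _ => Iff.rfl

theorem EqvP.symm {G : SimpleGraph V} {lam : V → L} {G' : SimpleGraph V'} {lam' : V' → L}
    (h : EqvP Φ G lam G' lam') : EqvP Φ G' lam' G lam := fun W G2 lam2 => (h W G2 lam2).symm

theorem EqvP.trans {V'' : Type} {G : SimpleGraph V} {lam : V → L} {G' : SimpleGraph V'}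
    {lam' : V' → L} {G'' : SimpleGraph V''} {lam'' : V'' → L}
    (h : EqvP Φ G lam G' lam') (h' : EqvP Φ G' lam' G'' lam'') : EqvP Φ G lam G'' lam'' :=
  fun W G2 lam2 => (h W G2 lam2).trans (h' W G2 lam2)

include hI in
/-- The use of the equivalence. -/
theorem EqvP.use {G : SimpleGraph V} {lam : V → L} {G' : SimpleGraph V'} {lam' : V' → L}
    (h : EqvP Φ G lam G' lam') {X X' : Type} {H : SimpleGraph X} {H' : SimpleGraph X'}
    {G2 : SimpleGraph W} {r : L → W → Prop} {i : V → X} {j : W → X} {i' : V' → X'} {j' : W → X'}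
    (hg : Glued H G G2 i j (fun v w => r (lam v) w))
    (hg' : Glued H' G' G2 i' j' (fun v w => r (lam' v) w)) :
    Φ _ H ↔ Φ _ H' := by
  have h1 := h W G2 (fun w => {l | r l w})
  constructor
  · intro hl
    exact phi_congr hI (glued_cg _ _ _) hg' (h1.mp (phi_congr hI hg (glued_cg _ _ _) hl))
  · intro hl
    exact phi_congr hI (glued_cg _ _ _) hg (h1.mpr (phi_congr hI hg' (glued_cg _ _ _) hl))

include hI in
/-- Replacing the first part. -/
theorem EqvP.glue1 {G1 : SimpleGraph V} {lam1 : V → L} {G1' : SimpleGraph V'} {lam1' : V' → L}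
    (h : EqvP Φ G1 lam1 G1' lam1') {G : SimpleGraph X} {G' : SimpleGraph X'} {G2 : SimpleGraph W}
    {lam2 : W → M} {i : V → X} {j : W → X} {i' : V' → X'} {j' : W → X'} {s : L → M → Prop}
    {N : Type} {lam : X → N} {lam' : X' → N} {f1 : L → N} {f2 : M → N}
    (hg : Glued G G1 G2 i j (fun v w => s (lam1 v) (lam2 w)))
    (hg' : Glued G' G1' G2 i' j' (fun v w => s (lam1' v) (lam2 w)))
    (h1 : ∀ v, lam (i v) = f1 (lam1 v)) (h2 : ∀ w, lam (j w) = f2 (lam2 w))
    (h1' : ∀ v, lam' (i' v) = f1 (lam1' v)) (h2' : ∀ w, lam' (j' w) = f2 (lam2 w)) :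
    EqvP Φ G lam G' lam' := by
  intro Y G3 lam3
  have e1 := hg.assoc G3 (fun x y => lam x ∈ lam3 y)
  have e2 := hg'.assoc G3 (fun x y => lam' x ∈ lam3 y)
  simp only [h1, h2] at e1
  simp only [h1', h2'] at e2
  exact h.use hI (r := fun l x => Sum.elim (fun w => s l (lam2 w)) (fun y => f1 l ∈ lam3 y) x) e1 e2

include hI in
/-- The equivalence is a congruence. -/
theorem EqvP.glue {W' : Type} {G1 : SimpleGraph V} {lam1 : V → L} {G1' : SimpleGraph V'}
    {lam1' : V' → L} {G2 : SimpleGraph W} {lam2 : W → M} {G2' : SimpleGraph W'} {lam2' : W' → M}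
    (h : EqvP Φ G1 lam1 G1' lam1') (hh : EqvP Φ G2 lam2 G2' lam2')
    {G : SimpleGraph X} {G' : SimpleGraph X'} {i : V → X} {j : W → X} {i' : V' → X'}
    {j' : W' → X'} {s : L → M → Prop}
    {N : Type} {lam : X → N} {lam' : X' → N} {f1 : L → N} {f2 : M → N}
    (hg : Glued G G1 G2 i j (fun v w => s (lam1 v) (lam2 w)))
    (hg' : Glued G' G1' G2' i' j' (fun v w => s (lam1' v) (lam2' w)))
    (h1 : ∀ v, lam (i v) = f1 (lam1 v)) (h2 : ∀ w, lam (j w) = f2 (lam2 w))
    (h1' : ∀ v, lam' (i' v) = f1 (lam1' v)) (h2' : ∀ w, lam' (j' w) = f2 (lam2' w)) :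
    EqvP Φ G lam G' lam' := by
  have e0 := glued_cg G1' G2 (fun v w => s (lam1' v) (lam2 w))
  have e1 : EqvP Φ G lam (cg G1' G2 (fun v w => s (lam1' v) (lam2 w)))
      (Sum.elim (fun v => f1 (lam1' v)) (fun w => f2 (lam2 w))) :=
    h.glue1 hI hg e0 h1 h2 (fun _ => rfl) (fun _ => rfl)
  have e2 : EqvP Φ (cg G1' G2 (fun v w => s (lam1' v) (lam2 w)))
      (Sum.elim (fun v => f1 (lam1' v)) (fun w => f2 (lam2 w))) G' lam' :=
    hh.glue1 hI (s := fun m l => s l m) (lam2 := lam1') e0.swap hg'.swap (fun _ => rfl)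
      (fun _ => rfl) h2' h1'
  exact e1.trans e2

/-- The equivalence as a setoid. -/
def lgSetoidP (Φ : ∀ V : Type, SimpleGraph V → Prop) (L : Type) : Setoid (LG L) where
  r a b := EqvP Φ a.G a.lam b.G b.lam
  iseqv := ⟨fun _ => EqvP.refl _ _, fun h => h.symm, fun h h' => h.trans h'⟩

theorem finite_quotientP (hF : FinIndex Φ) (L : Type) [Finite L] :
    Finite (Quotient (lgSetoidP Φ L)) := by
  obtain ⟨I, hI, ch, hch⟩ := hF L
  refine Finite.of_injective
    (fun q : Quotient (lgSetoidP Φ L) => ch q.out.V q.out.G q.out.lam) ?_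
  intro a b hab
  simp only at hab
  rw [← Quotient.out_equiv_out]
  intro W G2 lam2
  exact ⟨hch _ _ _ _ _ _ _ _ _ _ _ _ _ _ _ _ _ (glued_cg _ _ _) (glued_cg _ _ _) hab,
    hch _ _ _ _ _ _ _ _ _ _ _ _ _ _ _ _ _ (glued_cg _ _ _) (glued_cg _ _ _) hab.symm⟩

include hI in
/-- The finite state machine. -/
theorem exists_machineP (hF : FinIndex Φ) (K : ℕ) :
    ∃ (m : ℕ) (χ : ∀ V : Type, SimpleGraph V → (V → Fin K) → Fin m)
      (δ : Fin m → Fin m → (Fin K → Fin K → Prop) → (Fin K → Fin K) → (Fin K → Fin K) → Fin m)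
      (acc : Fin m → Bool),
      (∀ (X V W : Type) (G : SimpleGraph X) (G1 : SimpleGraph V)
        (G2 : SimpleGraph W) (i : V → X) (j : W → X) (l : X → Fin K) (l1 : V → Fin K)
        (l2 : W → Fin K) (s : Fin K → Fin K → Prop) (φ1 φ2 : Fin K → Fin K),
        Glued G G1 G2 i j (fun v w => s (l1 v) (l2 w)) → (∀ v, l (i v) = φ1 (l1 v)) →
        (∀ w, l (j w) = φ2 (l2 w)) → χ X G l = δ (χ V G1 l1) (χ W G2 l2) s φ1 φ2) ∧
      (∀ (V : Type) (G : SimpleGraph V) (l : V → Fin K),
        Φ _ G ↔ acc (χ V G l) = true) := by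
  have hfin := finite_quotientP hF (Fin K)
  set Qt := Quotient (lgSetoidP Φ (Fin K)) with hQt
  set e : Qt ≃ Fin (Nat.card Qt) := Finite.equivFin Qt with he
  set mk : LG (Fin K) → Qt := fun a => Quotient.mk (lgSetoidP Φ (Fin K)) a with hmk
  have hout : ∀ a : LG (Fin K), EqvP Φ (mk a).out.G (mk a).out.lam a.G a.lam :=
    fun a => Quotient.exact (Quotient.out_eq (mk a))
  set D : Qt → Qt → (Fin K → Fin K → Prop) → (Fin K → Fin K) → (Fin K → Fin K) → Qt :=
    fun q1 q2 s f1 f2 => mk ⟨_, cg q1.out.G q2.out.G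
      (fun v w => s (q1.out.lam v) (q2.out.lam w)),
      Sum.elim (fun v => f1 (q1.out.lam v)) (fun w => f2 (q2.out.lam w))⟩ with hD
  set A : Qt → Bool := fun q => decide (Φ _ q.out.G) with hA
  refine ⟨Nat.card Qt, fun V G l => e (mk ⟨V, G, l⟩), fun q1 q2 s f1 f2 =>
    e (D (e.symm q1) (e.symm q2) s f1 f2), fun q => A (e.symm q), ?_, ?_⟩
  · intro X V W G G1 G2 i j l l1 l2 s f1 f2 hg h1 h2
    simp only [Equiv.symm_apply_apply]
    congr 1
    refine Quotient.sound ?_
    have a1 := (hout ⟨V, G1, l1⟩).symm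
    have a2 := (hout ⟨W, G2, l2⟩).symm
    exact a1.glue hI a2 hg (glued_cg _ _ _) h1 h2 (fun _ => rfl) (fun _ => rfl)
  · intro V G l
    simp only [Equiv.symm_apply_apply]
    rw [hA]
    simp only [decide_eq_true_eq]
    have a1 := (hout ⟨V, G, l⟩).symm
    -- gluing with the empty graph
    have hE : ∀ (U : Type) (H : SimpleGraph U) (lu : U → Fin K),
        Glued H H (⊥ : SimpleGraph Empty) id Empty.elim
          (fun v w => (fun _ _ => False : Fin K → Empty → Prop) (lu v) w) := fun U H lu =>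
      { inj1 := Function.injective_id
        inj2 := fun a => a.elim
        disj := fun _ w => w.elim
        cover := fun x => Or.inl ⟨x, rfl⟩
        adj1 := fun _ _ => Iff.rfl
        adj2 := fun a => a.elim
        adj12 := fun _ w => w.elim }
    exact EqvP.use hI (r := fun _ _ => False) (G2 := (⊥ : SimpleGraph Empty)) a1
      (hE V G l) (hE _ _ (mk ⟨V, G, l⟩).out.lam)



end

end Pool.Agent.R545.Mw
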