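import Pool.Agent.R545.Mw.Machine
import Pool.Agent.R545.Mw.Defs

/-!
# Pure subtrees, restriction, and from shapes to trees
-/

namespace Pool.Agent.R545.Mw

open Classical Pool.Agent.R545.Lc

section

variable {V W X L M : Type} {G : SimpleGraph X} {G1 : SimpleGraph V} {G2 : SimpleGraph W}
  {i : V → X} {j : W → X} {lam1 : V → L} {lam2 : W → M} {r : L → M → Prop} {k : ℕ} [Finite X]

theorem alpha_empty (F : Set M) : alpha G1 lam1 r ∅ F = 0 := by
  unfold alpha
  rw [Set.image_empty, Set.ncard_empty]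

theorem ov_empty (d : Dat L M) (A : Set W) (hA : A = ∅) :
    ov r d (dat G2 lam2 (fun m l => r l m) A) = 0 := by
  subst hA
  unfold ov
  have : {p : L × M | p ∈ d.Y ∧ (p.2, p.1) ∈ (dat G2 lam2 (fun m l => r l m) ∅).Y} = ∅ := by
    rw [Set.eq_empty_iff_forall_notMem]
    rintro p ⟨-, ⟨w, hw, -⟩⟩
    exact hw
  rw [this, Set.image_empty, Set.ncard_empty]

/-- The count of a set of the first side. -/
theorem cnt_pure (h : Glued G G1 G2 i j (fun v w => r (lam1 v) (lam2 w))) (B : Set V) :
    cnt G (i '' B) = alpha G1 lam1 r B (lam2 '' Set.univ) := by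
  have h1 := glued_cnt h B ∅
  rw [ov_empty _ _ rfl, alpha_empty, Set.image_empty, Set.union_empty] at h1
  have h2 : (dat G2 lam2 (fun m l => r l m) ∅).fut = lam2 '' Set.univ := by
    unfold dat
    simp
  rw [h2] at h1
  simpa using h1

/-- A pure subtree of the first side. -/
theorem tl_pure (h : Glued G G1 G2 i j (fun v w => r (lam1 v) (lam2 w))) {B : Set V}
    (hB : TL (fun B => alpha G1 lam1 r B (lam2 '' Set.univ) ≤ k) B) :
    TL (fun A => cnt G A ≤ k) (i '' B) := by
  induction hB with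
  | single v hv =>
    have h1 := cnt_pure h {v}
    rw [Set.image_singleton] at h1 ⊢
    exact TL.single (i v) (by rw [h1]; exact hv)
  | union A B hd _ _ hAB ih1 ih2 =>
    have h1 := cnt_pure h (A ∪ B)
    rw [Set.image_union] at h1 ⊢
    refine TL.union _ _ ?_ ih1 ih2 (by rw [h1]; exact hAB)
    exact (Set.disjoint_image_iff h.inj1).mpr hd

/-- The rows of the first side are among all rows. -/
theorem alpha_le_cnt (h : Glued G G1 G2 i j (fun v w => r (lam1 v) (lam2 w))) (A1 : Set V)
    (A2 : Set W) : alpha G1 lam1 r A1 (dat G2 lam2 (fun m l => r l m) A2).fut ≤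
      cnt G (i '' A1 ∪ j '' A2) := by
  have h2 : (nb G (i '' A1 ∪ j '' A2) '' (i '' A1)).ncard =
      alpha G1 lam1 r A1 (dat G2 lam2 (fun m l => r l m) A2).fut := by
    unfold alpha
    rw [Set.image_image]
    exact ncard_image_congr h fun a _ b _ => glued_nb11 h A1 A2 a b
  rw [← h2]
  unfold cnt
  exact Set.ncard_le_ncard (Set.image_mono Set.subset_union_left) (Set.toFinite _)

/-- Restriction to the first side, if no label of the second side is exhausted. -/
theorem tl_restrict (h : Glued G G1 G2 i j (fun v w => r (lam1 v) (lam2 w))) {A : Set X}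
    (hA : TL (fun A => cnt G A ≤ k) A) : ∀ (A1 : Set V) (A2 : Set W), A = i '' A1 ∪ j '' A2 →
      A1.Nonempty → lam2 '' Set.univ ⊆ lam2 '' A2ᶜ →
      TL (fun B => alpha G1 lam1 r B (lam2 '' Set.univ) ≤ k) A1 := by
  have hfut : ∀ A2 : Set W, lam2 '' Set.univ ⊆ lam2 '' A2ᶜ →
      (dat G2 lam2 (fun m l => r l m) A2).fut = lam2 '' Set.univ := by
    intro A2 h2
    exact Set.Subset.antisymm (Set.image_mono (Set.subset_univ _)) h2
  induction hA with
  | single x hx =>
    intro A1 A2 hA hne hf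
    obtain ⟨v, hv⟩ := hne
    have h1 : i v ∈ ({x} : Set X) := by rw [hA]; exact Or.inl ⟨v, hv, rfl⟩
    have h2 : A1 = {v} := by
      ext u
      constructor
      · intro hu
        have h3 : i u ∈ ({x} : Set X) := by rw [hA]; exact Or.inl ⟨u, hu, rfl⟩
        exact h.inj1 (h3.trans h1.symm)
      · rintro rfl
        exact hv
    rw [h2]
    refine TL.single v ?_
    have h3 := alpha_le_cnt h A1 A2
    rw [hfut A2 hf, ← hA, h2] at h3
    exact h3.trans hx
  | union Y Z hd hY hZ hYZ ihY ihZ =>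
    intro A1 A2 hA hne hf
    -- the parts
    set B1 := i ⁻¹' Y
    set B2 := j ⁻¹' Y
    set C1 := i ⁻¹' Z
    set C2 := j ⁻¹' Z
    have hYe : Y = i '' B1 ∪ j '' B2 := by
      ext x
      rcases h.cover x with ⟨v, rfl⟩ | ⟨w, rfl⟩
      · rw [h.mem1]; rfl
      · rw [h.mem2]; rfl
    have hZe : Z = i '' C1 ∪ j '' C2 := by
      ext x
      rcases h.cover x with ⟨v, rfl⟩ | ⟨w, rfl⟩
      · rw [h.mem1]; rfl
      · rw [h.mem2]; rfl
    have hA1 : A1 = B1 ∪ C1 := by
      ext v
      rw [← h.mem1 A1 A2, ← hA]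
      rfl
    have hA2 : A2 = B2 ∪ C2 := by
      ext v
      rw [← h.mem2 A1 A2, ← hA]
      rfl
    have hf1 : lam2 '' Set.univ ⊆ lam2 '' B2ᶜ :=
      hf.trans (Set.image_mono (Set.compl_subset_compl.mpr (by
        rw [hA2]; exact Set.subset_union_left)))
    have hf2 : lam2 '' Set.univ ⊆ lam2 '' C2ᶜ :=
      hf.trans (Set.image_mono (Set.compl_subset_compl.mpr (by
        rw [hA2]; exact Set.subset_union_right)))
    rcases B1.eq_empty_or_nonempty with hB | hB
    · have h4 : A1 = C1 := by rw [hA1, hB, Set.empty_union]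
      rw [h4] at hne ⊢
      exact ihZ C1 C2 hZe hne hf2
    rcases C1.eq_empty_or_nonempty with hC | hC
    · have h4 : A1 = B1 := by rw [hA1, hC, Set.union_empty]
      rw [h4]
      exact ihY B1 B2 hYe hB hf1
    · have h3 := alpha_le_cnt h A1 A2
      rw [hfut A2 hf, ← hA, hA1] at h3
      rw [hA1]
      refine TL.union _ _ ?_ (ihY B1 B2 hYe hB hf1) (ihZ C1 C2 hZe hC hf2) (h3.trans hYZ)
      rw [Set.disjoint_left]
      intro v hv hv'
      exact Set.disjoint_left.mp hd hv hv'

theorem Seg.head {α : Type} {D : Set V → Prop} {f : Set V → α} {A C : Set V} {w : List α}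
    (h : Seg D f A w C) : ∃ x, w = f A :: x := by
  cases h with
  | nil => exact ⟨[], rfl⟩
  | cons _ _ h => exact ⟨_, rfl⟩

/-- A segment of a common shape. -/
theorem tl_seg (h : Glued G G1 G2 i j (fun v w => r (lam1 v) (lam2 w)))
    {x : List (Letter L M)} {y : List (Letter M L)} (hw : NW (okL k r) x y) :
    ∀ {A1 C1 : Set V} {A2 C2 : Set W},
    Seg (TL (fun B => alpha G1 lam1 r B (lam2 '' Set.univ) ≤ k)) (node G1 lam1 r) A1 x C1 →
    Seg (TL (fun B => alpha G2 lam2 (fun m l => r l m) B (lam1 '' Set.univ) ≤ k))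
      (node G2 lam2 (fun m l => r l m)) A2 y C2 →
    TL (fun A => cnt G A ≤ k) (i '' A1 ∪ j '' A2) →
    TL (fun A => cnt G A ≤ k) (i '' C1 ∪ j '' C2) := by
  have hd1 : ∀ (A B : Set V) (C : Set W), Disjoint A B → Disjoint (i '' A ∪ j '' C) (i '' B) := by
    intro A B C hd
    rw [Set.disjoint_left]
    rintro _ (⟨v, hv, rfl⟩ | ⟨w, hw, rfl⟩) ⟨u, hu, he⟩
    · rw [h.inj1 he] at hu
      exact Set.disjoint_left.mp hd hv hu
    · exact h.disj u w he
  have hd2 : ∀ (A : Set V) (C B : Set W), Disjoint C B → Disjoint (i '' A ∪ j '' C) (j '' B) := by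
    intro A C B hd
    rw [Set.disjoint_left]
    rintro _ (⟨v, hv, rfl⟩ | ⟨w, hw, rfl⟩) ⟨u, hu, he⟩
    · exact h.disj v u he.symm
    · rw [h.inj2 he] at hu
      exact Set.disjoint_left.mp hd hw hu
  induction hw with
  | @single a b hab =>
    intro A1 C1 A2 C2 h1 h2 h3
    have e1 : A1 = C1 := by
      cases h1 with
      | nil => rfl
      | cons _ _ h =>
        obtain ⟨x, hx⟩ := h.head
        exact absurd hx (by simp)
    have e2 : A2 = C2 := by
      cases h2 with
      | nil => rfl
      | cons _ _ h =>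
        obtain ⟨x, hx⟩ := h.head
        exact absurd hx (by simp)
    rw [← e1, ← e2]
    exact h3
  | @left a b x y hab hw ih =>
    intro A1 C1 A2 C2 h1 h2 h3
    cases h1 with
    | nil => exact absurd rfl hw.ne1
    | @cons _ B _ _ hd hB h1 =>
      refine ih h1 h2 ?_
      obtain ⟨x', hx⟩ := h1.head
      obtain ⟨y', hy⟩ := h2.head
      rw [List.cons.injEq] at hy
      have hok : okL k r (node G1 lam1 r (A1 ∪ B)) (node G2 lam2 (fun m l => r l m) A2) := by
        rw [← hy.1]
        rw [hx] at hw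
        cases hw <;> assumption
      rw [okL_node h] at hok
      have e : i '' (A1 ∪ B) ∪ j '' A2 = (i '' A1 ∪ j '' A2) ∪ i '' B := by
        rw [Set.image_union, Set.union_assoc, Set.union_assoc, Set.union_comm (i '' B)]
      rw [e] at hok ⊢
      exact TL.union _ _ (hd1 _ _ _ hd) h3 (tl_pure h hB) hok
  | @right a b x y hab hw ih =>
    intro A1 C1 A2 C2 h1 h2 h3
    cases h2 with
    | nil => exact absurd rfl hw.ne2
    | @cons _ B _ _ hd hB h2 =>
      refine ih h1 h2 ?_
      obtain ⟨x', hx⟩ := h1.head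
      obtain ⟨y', hy⟩ := h2.head
      rw [List.cons.injEq] at hx
      have hok : okL k r (node G1 lam1 r A1) (node G2 lam2 (fun m l => r l m) (A2 ∪ B)) := by
        rw [← hx.1]
        rw [hy] at hw
        cases hw <;> assumption
      rw [okL_node h] at hok
      have e : i '' A1 ∪ j '' (A2 ∪ B) = (i '' A1 ∪ j '' A2) ∪ j '' B := by
        rw [Set.image_union, Set.union_assoc]
      rw [e] at hok ⊢
      exact TL.union _ _ (hd2 _ _ _ hd) h3
        (tl_pure (r := fun m l => r l m) (lam1 := lam2) (lam2 := lam1) h.swap hB) hok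

/-- From a common shape to a tree. -/
theorem tl_of_real (h : Glued G G1 G2 i j (fun v w => r (lam1 v) (lam2 w)))
    {s : Sh (List (Letter L M))} {t : Sh (List (Letter M L))} {A1 : Set V} {A2 : Set W}
    (hs : Real (TL (fun B => alpha G1 lam1 r B (lam2 '' Set.univ) ≤ k)) (node G1 lam1 r) s A1)
    (ht : Real (TL (fun B => alpha G2 lam2 (fun m l => r l m) B (lam1 '' Set.univ) ≤ k))
      (node G2 lam2 (fun m l => r l m)) t A2)
    (hst : Sh.Rel (NW (okL k r)) s t) :
    TL (fun A => cnt G A ≤ k) (i '' A1 ∪ j '' A2) := by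
  have hhead : ∀ {x : List (Letter L M)} {y : List (Letter M L)} {A1 C1 : Set V}
      {A2 C2 : Set W}, NW (okL k r) x y →
      Seg (TL (fun B => alpha G1 lam1 r B (lam2 '' Set.univ) ≤ k)) (node G1 lam1 r) A1 x C1 →
      Seg (TL (fun B => alpha G2 lam2 (fun m l => r l m) B (lam1 '' Set.univ) ≤ k))
        (node G2 lam2 (fun m l => r l m)) A2 y C2 → cnt G (i '' A1 ∪ j '' A2) ≤ k := by
    intro x y A1 C1 A2 C2 hw h1 h2
    obtain ⟨x', hx⟩ := h1.head
    obtain ⟨y', hy⟩ := h2.head
    rw [hx, hy] at hw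
    rw [← okL_node (r := r) (lam1 := lam1) (lam2 := lam2) h]
    cases hw <;> assumption
  have hdj : ∀ (A : Set V) (C : Set W), Disjoint (i '' A) (j '' C) := by
    intro A C
    rw [Set.disjoint_left]
    rintro _ ⟨v, hv, rfl⟩ ⟨u, hu, he⟩
    exact h.disj v u he.symm
  induction hst generalizing A1 A2 with
  | leaf hw =>
    cases hs with
    | leaf hA hseg =>
      cases ht with
      | leaf hA' hseg' =>
        refine tl_seg h hw hseg hseg' ?_
        exact TL.union _ _ (hdj _ _) (tl_pure h hA)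
          (tl_pure (r := fun m l => r l m) (lam1 := lam2) (lam2 := lam1) h.swap hA')
          (hhead hw hseg hseg')
  | node hw _ _ ih1 ih2 =>
    cases hs with
    | @node A B _ _ _ _ hd hsA hsB hseg =>
      cases ht with
      | @node A' B' _ _ _ _ hd' htA htB hseg' =>
        refine tl_seg h hw hseg hseg' ?_
        have e : i '' (A ∪ B) ∪ j '' (A' ∪ B') = (i '' A ∪ j '' A') ∪ (i '' B ∪ j '' B') := by
          rw [Set.image_union, Set.image_union]
          ext x
          simp only [Set.mem_union]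
          tauto
        have hc := hhead hw hseg hseg'
        rw [e] at hc ⊢
        refine TL.union _ _ ?_ (ih1 hsA htA) (ih2 hsB htB) hc
        rw [Set.disjoint_left]
        rintro _ (⟨v, hv, rfl⟩ | ⟨w, hw, rfl⟩) (⟨u, hu, he⟩ | ⟨u, hu, he⟩)
        · rw [h.inj1 he] at hu
          exact Set.disjoint_left.mp hd hv hu
        · exact h.disj v u he.symm
        · exact h.disj u w he
        · rw [h.inj2 he] at hu
          exact Set.disjoint_left.mp hd' hw hu

end

end Pool.Agent.R545.Mw
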